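import Mathlib

set_option autoImplicit false

namespace Pool.Agent.Helper590.Duj.Cls

/-- integer solutions of `x^2 - (k^2+1) y^2 = k^2` -/
def IsSol (k : ℕ) (s : ℤ × ℤ) : Prop := s.1 ^ 2 - ((k : ℤ) ^ 2 + 1) * s.2 ^ 2 = (k : ℤ) ^ 2

/-- `s' = s (u + v √(k^2+1))` with `u^2 - (k^2+1) v^2 = 1` -/
def Assoc (k : ℕ) (s s' : ℤ × ℤ) : Prop :=
  ∃ u v : ℤ, u ^ 2 - ((k : ℤ) ^ 2 + 1) * v ^ 2 = 1 ∧
    s'.1 = s.1 * u + ((k : ℤ) ^ 2 + 1) * s.2 * v ∧ s'.2 = s.1 * v + s.2 * u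

/-- the set of classes -/
def classes (k : ℕ) : Set (Set (ℤ × ℤ)) :=
  {C | ∃ s, IsSol k s ∧ C = {s' | Assoc k s s'}}

theorem assoc_refl (k : ℕ) (s : ℤ × ℤ) : Assoc k s s := ⟨1, 0, by ring, by ring, by ring⟩

theorem assoc_trans (k : ℕ) (s s' s'' : ℤ × ℤ) (h : Assoc k s s') (h' : Assoc k s' s'') : Assoc k s s'' := by
  obtain ⟨u, v, h1, h2, h3⟩ := h
  obtain ⟨u', v', h1', h2', h3'⟩ := h'
  refine ⟨u * u' + ((k : ℤ) ^ 2 + 1) * v * v', u * v' + v * u', ?_, ?_, ?_⟩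
  · linear_combination h1 + (u ^ 2 - ((k : ℤ) ^ 2 + 1) * v ^ 2) * h1'
  · rw [h2', h2, h3]; ring
  · rw [h3', h2, h3]; ring

theorem assoc_symm (k : ℕ) (s s' : ℤ × ℤ) (h : Assoc k s s') : Assoc k s' s := by
  obtain ⟨u, v, h1, h2, h3⟩ := h
  refine ⟨u, -v, by linear_combination h1, ?_, ?_⟩
  · rw [h2, h3]; linear_combination (-s.1) * h1
  · rw [h2, h3]; linear_combination (-s.2) * h1

theorem assoc_sol (k : ℕ) (s s' : ℤ × ℤ) (h : Assoc k s s') (hs : IsSol k s) : IsSol k s' := by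
  obtain ⟨u, v, h1, h2, h3⟩ := h
  unfold IsSol at *
  rw [h2, h3]
  linear_combination hs + (s.1 ^ 2 - ((k : ℤ) ^ 2 + 1) * s.2 ^ 2) * h1

theorem assoc_neg (k : ℕ) (s : ℤ × ℤ) : Assoc k s (-s.1, -s.2) :=
  ⟨-1, 0, by ring, by ring, by ring⟩

theorem unit_bound (k : ℕ) (hk : 1 ≤ k) (u v : ℤ) (h : u ^ 2 - ((k : ℤ) ^ 2 + 1) * v ^ 2 = 1) (hv : v ≠ 0) :
    2 * (k : ℤ) ≤ |v| := by
  have hk0 : (0 : ℤ) < k := by exact_mod_cast hk
  have hv0 : 0 < |v| := abs_pos.mpr hv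
  have hu2 : |u| ^ 2 = ((k : ℤ) ^ 2 + 1) * |v| ^ 2 + 1 := by
    rw [sq_abs, sq_abs]; linarith
  have h1 : (k : ℤ) * |v| < |u| := by
    by_contra hcon
    have h2 : |u| ≤ k * |v| := not_lt.mp hcon
    have h3 : |u| ^ 2 ≤ (k * |v|) ^ 2 := pow_le_pow_left₀ (abs_nonneg u) h2 2
    have h4 : 0 < |v| ^ 2 := by positivity
    linarith
  have h2 : (k : ℤ) * |v| + 1 ≤ |u| := h1
  have h3 : ((k : ℤ) * |v| + 1) ^ 2 ≤ |u| ^ 2 := pow_le_pow_left₀ (by positivity) h2 2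
  have h4 : |v| * (2 * k) ≤ |v| * |v| := by linarith
  exact le_of_mul_le_mul_left h4 hv0

theorem x_bound (k : ℕ) (hk : 1 ≤ k) (s : ℤ × ℤ) (hs : IsSol k s) (h0 : 0 ≤ s.2) (h1 : s.2 < k) :
    |s.1| ≤ (k : ℤ) ^ 2 - k + 1 := by
  have hk0 : (1 : ℤ) ≤ k := by exact_mod_cast hk
  have h2 : s.2 ^ 2 ≤ ((k : ℤ) - 1) ^ 2 := pow_le_pow_left₀ h0 (by linarith) 2
  have h3 : ((k : ℤ) ^ 2 + 1) * s.2 ^ 2 ≤ ((k : ℤ) ^ 2 + 1) * ((k : ℤ) - 1) ^ 2 :=
    mul_le_mul_of_nonneg_left h2 (by positivity)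
  have h4 : |s.1| ^ 2 ≤ ((k : ℤ) ^ 2 - k + 1) ^ 2 := by
    rw [sq_abs]
    unfold IsSol at hs
    have e : ((k : ℤ) ^ 2 - k + 1) ^ 2 = ((k : ℤ) ^ 2 + 1) * ((k : ℤ) - 1) ^ 2 + (k : ℤ) ^ 2 := by ring
    linarith
  have h5 : (0 : ℤ) ≤ (k : ℤ) ^ 2 - k + 1 := by nlinarith
  exact (pow_le_pow_iff_left₀ (abs_nonneg _) h5 two_ne_zero).mp h4

/-- fundamental solutions in the same class agree up to sign -/
theorem fund_unique (k : ℕ) (hk : 1 ≤ k) (s s' : ℤ × ℤ) (hs : IsSol k s) (hs' : IsSol k s')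
    (h : Assoc k s s') (h0 : 0 ≤ s.2) (h1 : s.2 < k) (h0' : 0 ≤ s'.2) (h1' : s'.2 < k) :
    s' = s ∨ s' = (-s.1, -s.2) := by
  have hk0 : (1 : ℤ) ≤ k := by exact_mod_cast hk
  have hb := x_bound k hk s hs h0 h1
  have hb' := x_bound k hk s' hs' h0' h1'
  obtain ⟨u, v, hu, h2, h3⟩ := h
  have hv : v = 0 := by
    by_contra hv
    have e1 := unit_bound k hk u v hu hv
    have e2 : v * (k : ℤ) ^ 2 = s.1 * s'.2 - s'.1 * s.2 := by
      unfold IsSol at hs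
      rw [h2, h3]
      linear_combination (-v) * hs
    have e3 : |v| * (k : ℤ) ^ 2 ≤ |s.1| * s'.2 + |s'.1| * s.2 := by
      have f1 : |v * (k : ℤ) ^ 2| = |v| * (k : ℤ) ^ 2 := by
        rw [abs_mul, abs_of_nonneg (by positivity : (0 : ℤ) ≤ (k : ℤ) ^ 2)]
      rw [← f1, e2]
      have f2 := abs_sub (s.1 * s'.2) (s'.1 * s.2)
      rw [abs_mul, abs_mul, abs_of_nonneg h0, abs_of_nonneg h0'] at f2
      exact f2
    have e4 : |s.1| * s'.2 ≤ ((k : ℤ) ^ 2 - k + 1) * (k - 1) :=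
      mul_le_mul hb (by linarith) h0' (by nlinarith)
    have e5 : |s'.1| * s.2 ≤ ((k : ℤ) ^ 2 - k + 1) * (k - 1) :=
      mul_le_mul hb' (by linarith) h0 (by nlinarith)
    have e6 : 2 * (k : ℤ) * (k : ℤ) ^ 2 ≤ |v| * (k : ℤ) ^ 2 := mul_le_mul_of_nonneg_right e1 (by positivity)
    nlinarith
  rw [hv] at hu h2 h3
  have hu1 : u = 1 ∨ u = -1 := by
    have e1 : (u - 1) * (u + 1) = 0 := by linear_combination hu
    rcases mul_eq_zero.mp e1 with e2 | e2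
    · left; linarith
    · right; linarith
  rcases hu1 with e | e
  · left
    rw [e] at h2 h3
    exact Prod.ext (by linarith) (by linarith)
  · right
    rw [e] at h2 h3
    exact Prod.ext (by simp only; linarith) (by simp only; linarith)

/-- every class has an element with `0 ≤ y < k` -/
theorem exists_fund (k : ℕ) (hk : 1 ≤ k) (n : ℕ) : ∀ s : ℤ × ℤ, IsSol k s → s.2.natAbs ≤ n →
    ∃ s', Assoc k s s' ∧ 0 ≤ s'.2 ∧ s'.2 < k := by
  have hk0 : (1 : ℤ) ≤ k := by exact_mod_cast hk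
  induction n with
  | zero =>
    intro s hs hn
    have h0 : s.2 = 0 := by
      have : s.2.natAbs = 0 := by omega
      exact Int.natAbs_eq_zero.mp this
    exact ⟨s, assoc_refl k s, by rw [h0], by rw [h0]; linarith⟩
  | succ n ih =>
    intro s hs hn
    -- make y nonnegative
    obtain ⟨r, hr, hr0, hrn⟩ : ∃ r, Assoc k s r ∧ 0 ≤ r.2 ∧ r.2.natAbs ≤ n + 1 := by
      rcases le_total 0 s.2 with h | h
      · exact ⟨s, assoc_refl k s, h, hn⟩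
      · exact ⟨(-s.1, -s.2), assoc_neg k s, by simp only; linarith, by simp only; omega⟩
    rcases lt_or_ge r.2 k with h | h
    · exact ⟨r, hr, hr0, h⟩
    · have hrs := assoc_sol k s r hr hs
      have hrs' : r.1 ^ 2 = ((k : ℤ) ^ 2 + 1) * r.2 ^ 2 + (k : ℤ) ^ 2 := by
        unfold IsSol at hrs; linarith
      have hy0 : 0 < r.2 := by linarith
      have ha : |r.1| ^ 2 = ((k : ℤ) ^ 2 + 1) * r.2 ^ 2 + (k : ℤ) ^ 2 := by rw [sq_abs]; exact hrs'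
      have h1 : k * r.2 < |r.1| := by
        by_contra hcon
        have h2 : |r.1| ≤ k * r.2 := not_lt.mp hcon
        have h3 : |r.1| ^ 2 ≤ (k * r.2) ^ 2 := pow_le_pow_left₀ (abs_nonneg _) h2 2
        have h4 : 0 < r.2 ^ 2 := by positivity
        have h5 : (0 : ℤ) < (k : ℤ) ^ 2 := by positivity
        linarith
      have h2 : k * |r.1| < ((k : ℤ) ^ 2 + 1) * r.2 := by
        by_contra hcon
        have h3 : ((k : ℤ) ^ 2 + 1) * r.2 ≤ k * |r.1| := not_lt.mp hcon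
        have h4 : (((k : ℤ) ^ 2 + 1) * r.2) ^ 2 ≤ (k * |r.1|) ^ 2 := pow_le_pow_left₀ (by positivity) h3 2
        have h5 : (k * |r.1|) ^ 2 = (k : ℤ) ^ 2 * (((k : ℤ) ^ 2 + 1) * r.2 ^ 2 + (k : ℤ) ^ 2) := by
          rw [mul_pow, ha]
        have h6 : (k : ℤ) ^ 2 ≤ r.2 ^ 2 := pow_le_pow_left₀ (by linarith) h 2
        have h7 : ((k : ℤ) ^ 2 + 1) * (k : ℤ) ^ 2 ≤ ((k : ℤ) ^ 2 + 1) * r.2 ^ 2 :=
          mul_le_mul_of_nonneg_left h6 (by positivity)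
        have h8 : (0 : ℤ) < (k : ℤ) ^ 2 := by positivity
        nlinarith
      obtain ⟨q, hq, hq2⟩ : ∃ q, Assoc k r q ∧ q.2 = (2 * (k : ℤ) ^ 2 + 1) * r.2 - 2 * k * |r.1| := by
        rcases le_total 0 r.1 with h3 | h3
        · refine ⟨(r.1 * (2 * (k : ℤ) ^ 2 + 1) + ((k : ℤ) ^ 2 + 1) * r.2 * (-2 * k),
            r.1 * (-2 * k) + r.2 * (2 * (k : ℤ) ^ 2 + 1)), ⟨2 * (k : ℤ) ^ 2 + 1, -2 * k, by ring, rfl, rfl⟩, ?_⟩
          rw [abs_of_nonneg h3]; simp only; ring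
        · refine ⟨(r.1 * (2 * (k : ℤ) ^ 2 + 1) + ((k : ℤ) ^ 2 + 1) * r.2 * (2 * k),
            r.1 * (2 * k) + r.2 * (2 * (k : ℤ) ^ 2 + 1)), ⟨2 * (k : ℤ) ^ 2 + 1, 2 * k, by ring, rfl, rfl⟩, ?_⟩
          rw [abs_of_nonpos h3]; simp only; ring
      have hlt : q.2.natAbs < r.2.natAbs := by
        have g1 : q.2 < r.2 := by
          have e1 : (2 * k) * (k * r.2) < (2 * k) * |r.1| := mul_lt_mul_of_pos_left h1 (by linarith)
          rw [hq2]; linarith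
        have g2 : -r.2 < q.2 := by rw [hq2]; linarith
        omega
      obtain ⟨s', hs', h5, h6⟩ := ih q (assoc_sol k r q hq hrs) (by omega)
      exact ⟨s', assoc_trans k s r s' hr (assoc_trans k r q s' hq hs'), h5, h6⟩

theorem class_eq (k : ℕ) (s s' : ℤ × ℤ) (h : Assoc k s s') :
    {r | Assoc k s r} = {r | Assoc k s' r} := by
  ext r
  exact ⟨fun h1 => assoc_trans k s' s r (assoc_symm k s s' h) h1, fun h1 => assoc_trans k s s' r h h1⟩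

/-- a complete list of fundamental solutions gives the number of classes -/
theorem count_classes (k : ℕ) (hk : 1 ≤ k) (F : Finset (ℤ × ℤ))
    (hF : ∀ s ∈ F, IsSol k s ∧ 0 ≤ s.2 ∧ s.2 < k)
    (hF0 : ∀ s ∈ F, s.2 = 0 → 0 < s.1)
    (hall : ∀ s : ℤ × ℤ, IsSol k s → 0 ≤ s.2 → s.2 < k → s ∈ F ∨ (-s.1, -s.2) ∈ F) :
    (classes k).ncard = F.card := by
  have himg : classes k = (fun s => {r | Assoc k s r}) '' (F : Set (ℤ × ℤ)) := by
    ext C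
    constructor
    · rintro ⟨s, hs, hC⟩
      obtain ⟨s', hs', h0, h1⟩ := exists_fund k hk s.2.natAbs s hs le_rfl
      have hsol := assoc_sol k s s' hs' hs
      rcases hall s' hsol h0 h1 with h | h
      · refine ⟨s', h, ?_⟩
        rw [hC]
        exact (class_eq k s s' hs').symm
      · refine ⟨(-s'.1, -s'.2), h, ?_⟩
        rw [hC]
        exact (class_eq k s _ (assoc_trans k s s' _ hs' (assoc_neg k s'))).symm
    · rintro ⟨s, hs, hC⟩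
      exact ⟨s, (hF s hs).1, hC.symm⟩
  rw [himg, Set.InjOn.ncard_image, Set.ncard_coe_finset]
  intro s hs s' hs' hss
  have hs1 := hF s hs
  have hs1' := hF s' hs'
  have h1 : Assoc k s s' := by
    have : s' ∈ {r | Assoc k s' r} := assoc_refl k s'
    simp only at hss
    rw [← hss] at this
    exact this
  rcases fund_unique k hk s s' hs1.1 hs1'.1 h1 hs1.2.1 hs1.2.2 hs1'.2.1 hs1'.2.2 with h | h
  · exact h.symm
  · exfalso
    have e2 : s'.2 = -s.2 := by rw [h]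
    have e1 : s'.1 = -s.1 := by rw [h]
    have e3 : s.2 = 0 := by linarith [hs1.2.1, hs1'.2.1]
    have e4 : s'.2 = 0 := by linarith
    have e5 := hF0 s hs e3
    have e6 := hF0 s' hs' e4
    linarith

end Pool.Agent.Helper590.Duj.Cls
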