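import Mathlib

set_option autoImplicit false

namespace Pool.Agent.Helper590.Duj

/-- reduction of an extra solution, over the integers -/
theorem rep_int (k x y : ℤ) (hx : 0 < x) (hy : 0 < y) (hyk : y < k - 1)
    (h : x ^ 2 - (k ^ 2 + 1) * y ^ 2 = k ^ 2) :
    ∃ σ a t c : ℤ, 1 ≤ a ∧ 0 ≤ t ∧ (σ = 1 ∨ (σ = -1 ∧ 2 ≤ a)) ∧ 2 * a ^ 2 * t ≤ k ∧ 0 < c ∧
      c ^ 2 = a ^ 2 * t ^ 2 + a ^ 2 + σ * t ^ 2 ∧ k = 2 * a * (a * t + c) + σ * t ∧
      (t = 0 → k = 2 * y ^ 2 ∧ x = 2 * y ^ 3 + y) := by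
  have hk : 0 < k := by linarith
  obtain ⟨r, hr⟩ : ∃ r, r = x - k * y := ⟨_, rfl⟩
  have hxr : x = k * y + r := by linarith
  have h1 : r ^ 2 + 2 * k * y * r = y ^ 2 + k ^ 2 := by
    rw [hxr] at h
    linear_combination h
  have hr0 : 0 < r := by
    by_contra hcon
    have h2 : x ≤ k * y := by linarith [not_lt.mp hcon]
    have h3 : x ^ 2 ≤ (k * y) ^ 2 := pow_le_pow_left₀ hx.le h2 2
    have h4 : 0 < y ^ 2 := by positivity
    have h5 : 0 < k ^ 2 := by positivity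
    nlinarith
  have hky : 0 < k * y := mul_pos hk hy
  have hr2 : 2 ≤ r := by
    by_contra hcon
    have h2 : r = 1 := by omega
    rw [h2] at h1
    have h3 : (k - y) ^ 2 = 1 := by linear_combination (-1) * h1
    have h4 : 2 ^ 2 ≤ (k - y) ^ 2 := pow_le_pow_left₀ (by norm_num) (by linarith) 2
    linarith
  have h3y : 3 * y < k := by
    have e1 : k * y * 2 ≤ k * y * r := mul_le_mul_of_nonneg_left hr2 hky.le
    have e2 : y * y < k * y := mul_lt_mul_of_pos_right (by linarith) hy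
    have e3 : 0 < r ^ 2 := by positivity
    have e4 : k * (3 * y) < k * k := by linarith
    exact lt_of_mul_lt_mul_left e4 hk.le
  rcases le_or_gt y r with hyr | hyr
  · -- sigma = 1
    obtain ⟨t, ht⟩ : ∃ t, t = k - 2 * y * r := ⟨_, rfl⟩
    have hkt : k * t = r ^ 2 - y ^ 2 := by rw [ht]; linear_combination (-1) * h1
    have hyr2 : y ^ 2 ≤ r ^ 2 := pow_le_pow_left₀ hy.le hyr 2
    have ht0 : 0 ≤ t := by
      by_contra hcon
      have h2 : k * t < 0 := mul_neg_of_pos_of_neg hk (not_le.mp hcon)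
      linarith
    have hyrk : 2 * y * r ≤ k := by linarith
    have e1 : y ^ 2 * (k * t) ≤ y ^ 2 * r ^ 2 := by
      apply mul_le_mul_of_nonneg_left _ (by positivity)
      have : 0 < y ^ 2 := by positivity
      linarith
    have e2 : (2 * y * r) ^ 2 ≤ k ^ 2 := pow_le_pow_left₀ (by positivity) hyrk 2
    have e3 : k * (2 * y ^ 2 * t) ≤ k * k := by
      have : 0 < k ^ 2 := by positivity
      linarith
    have hb : 2 * y ^ 2 * t ≤ k := le_of_mul_le_mul_left e3 hk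
    have hc0 : 0 < r - y * t := by
      have e4 : (2 * y * r) * t ≤ k * t := mul_le_mul_of_nonneg_right hyrk ht0
      have e5 : 0 < y ^ 2 := by positivity
      have e6 : r * (2 * y * t) < r * r := by linarith
      have e7 := lt_of_mul_lt_mul_left e6 hr0.le
      have e8 : 0 ≤ y * t := mul_nonneg hy.le ht0
      linarith
    refine ⟨1, y, t, r - y * t, hy, ht0, Or.inl rfl, hb, hc0, ?_, ?_, ?_⟩
    · have : k = t + 2 * y * r := by linarith
      rw [this] at hkt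
      linear_combination (-1) * hkt
    · rw [ht]; ring
    · intro ht00
      have h2 : r ^ 2 = y ^ 2 := by rw [ht00, mul_zero] at hkt; linarith
      have h3 : r = y := (pow_left_inj₀ hr0.le hy.le two_ne_zero).mp h2
      have h4 : k = 2 * y ^ 2 := by rw [ht00, h3] at ht; linarith
      refine ⟨h4, ?_⟩
      rw [hxr, h3, h4]; ring
  · -- sigma = -1
    obtain ⟨t, ht⟩ : ∃ t, t = 2 * y * r - k := ⟨_, rfl⟩
    have hkt : k * t = y ^ 2 - r ^ 2 := by rw [ht]; linear_combination h1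
    have hyr2 : r ^ 2 < y ^ 2 := pow_lt_pow_left₀ hyr hr0.le two_ne_zero
    have ht0 : 0 < t := by
      have : 0 < k * t := by rw [hkt]; linarith
      exact (mul_pos_iff_of_pos_left hk).mp this
    have e0 : 3 * t < y := by
      have e1 : (3 * y) * t < k * t := mul_lt_mul_of_pos_right h3y ht0
      have e2 : 0 < r ^ 2 := by positivity
      have e3 : y * (3 * t) < y * y := by linarith
      exact lt_of_mul_lt_mul_left e3 hy.le
    have e1 : y * 1 ≤ y * r := mul_le_mul_of_nonneg_left (by linarith) hy.le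
    have e2 : 5 * (y * r) < 3 * k := by linarith
    have e3 : (5 * (y * r)) ^ 2 < (3 * k) ^ 2 := pow_lt_pow_left₀ e2 (by positivity) two_ne_zero
    have e4 : r ^ 2 * (k * t) ≤ r ^ 2 * y ^ 2 := by
      apply mul_le_mul_of_nonneg_left _ (by positivity)
      have : 0 < r ^ 2 := by positivity
      linarith
    have e5 : k * (2 * r ^ 2 * t) < k * k := by nlinarith
    have hb := lt_of_mul_lt_mul_left e5 hk.le
    have hc0 : 0 < y - r * t := by
      have e6 : r * (2 * (r * t)) < r * (2 * y) := by linarith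
      have e7 := lt_of_mul_lt_mul_left e6 hr0.le
      linarith
    refine ⟨-1, r, t, y - r * t, by linarith, ht0.le, Or.inr ⟨rfl, hr2⟩, hb.le, hc0, ?_, ?_, ?_⟩
    · have : k = 2 * y * r - t := by linarith
      rw [this] at hkt
      linear_combination (-1) * hkt
    · rw [ht]; ring
    · intro ht00
      linarith

/-- reduced data attached to an extra solution -/
def Rep (σ : ℤ) (k a t : ℕ) : Prop :=
  1 ≤ a ∧ (σ = 1 ∨ (σ = -1 ∧ 2 ≤ a)) ∧ 2 * a ^ 2 * t ≤ k ∧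
    ∃ c : ℤ, 0 < c ∧ c ^ 2 = (a : ℤ) ^ 2 * (t : ℤ) ^ 2 + (a : ℤ) ^ 2 + σ * (t : ℤ) ^ 2 ∧
      (k : ℤ) = 2 * a * (a * t + c) + σ * t

theorem rep_exists (k : ℕ) (x y : ℤ) (hx : 0 < x) (hy : 0 < y) (hyk : y < (k : ℤ) - 1)
    (h : x ^ 2 - ((k : ℤ) ^ 2 + 1) * y ^ 2 = (k : ℤ) ^ 2) :
    ∃ a t : ℕ, (Rep 1 k a t ∨ Rep (-1) k a t) ∧ (t = 0 → (k : ℤ) = 2 * y ^ 2 ∧ x = 2 * y ^ 3 + y) := by
  obtain ⟨σ, a, t, c, ha, ht, hσ, hb, hc, h1, h2, hfam⟩ := rep_int k x y hx hy hyk h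
  lift a to ℕ using (by linarith)
  lift t to ℕ using ht
  refine ⟨a, t, ?_, fun h0 => hfam (by exact_mod_cast h0)⟩
  rcases hσ with hσ | ⟨hσ, ha2⟩
  · left
    subst hσ
    exact ⟨by exact_mod_cast ha, Or.inl rfl, by exact_mod_cast hb, c, hc, h1, h2⟩
  · right
    subst hσ
    exact ⟨by exact_mod_cast ha, Or.inr ⟨rfl, by exact_mod_cast ha2⟩, by exact_mod_cast hb, c, hc, h1, h2⟩

theorem rep_unique (σ : ℤ) (k k' a t : ℕ) (h : Rep σ k a t) (h' : Rep σ k' a t) : k = k' := by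
  obtain ⟨_, _, _, c, hc, hcc, hk⟩ := h
  obtain ⟨_, _, _, c', hc', hcc', hk'⟩ := h'
  have : c = c' := (pow_left_inj₀ hc.le hc'.le two_ne_zero).mp (hcc.trans hcc'.symm)
  subst this
  have : (k : ℤ) = k' := by rw [hk, hk']
  exact_mod_cast this

/-- `t ≤ a` -/
theorem case1 (σ : ℤ) (k a t : ℕ) (h : Rep σ k a t) (ht : 1 ≤ t) (hta : t ≤ a) :
    ∃ e : ℕ, t * e ≤ a ∧ ((a : ℤ) - e * t) ^ 2 = (e : ℤ) ^ 2 * (t : ℤ) ^ 2 + (e : ℤ) ^ 2 - σ * (t : ℤ) ^ 2 := by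
  obtain ⟨ha, hσ, _, c, hc, hcc, _⟩ := h
  have ha' : (0 : ℤ) < a := by exact_mod_cast ha
  have ht' : (0 : ℤ) < t := by exact_mod_cast ht
  have hta' : (t : ℤ) ≤ a := by exact_mod_cast hta
  have hta2 : (t : ℤ) ^ 2 ≤ (a : ℤ) ^ 2 := pow_le_pow_left₀ ht'.le hta' 2
  have hσt : -(t : ℤ) ^ 2 ≤ σ * (t : ℤ) ^ 2 ∧ σ * (t : ℤ) ^ 2 ≤ (t : ℤ) ^ 2 := by
    have : 0 < (t : ℤ) ^ 2 := by positivity
    rcases hσ with h1 | ⟨h1, _⟩ <;> rw [h1] <;> constructor <;> linarith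
  have he : (a : ℤ) * t ≤ c := by
    have e1 : ((a : ℤ) * t) ^ 2 ≤ c ^ 2 := by
      rw [hcc]
      linarith [hσt.1]
    exact (pow_le_pow_iff_left₀ (by positivity) hc.le two_ne_zero).mp e1
  obtain ⟨e, hee⟩ : ∃ e, e = c - (a : ℤ) * t := ⟨_, rfl⟩
  have he0 : 0 ≤ e := by linarith
  have hce : c = a * t + e := by linarith
  have hq : e * (2 * a * t + e) = (a : ℤ) ^ 2 + σ * (t : ℤ) ^ 2 := by
    rw [hce] at hcc
    linear_combination hcc
  lift e to ℕ using he0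
  refine ⟨e, ?_, by linear_combination (-1) * hq⟩
  have e1 : (a : ℤ) * (t * e) ≤ a * a := by
    have e2 : (0 : ℤ) ≤ (e : ℤ) ^ 2 := by positivity
    linarith [hσt.2]
  have e2 := le_of_mul_le_mul_left e1 ha'
  exact_mod_cast e2

theorem case1_unique (σ : ℤ) (a a' t e : ℕ) (h : t * e ≤ a) (h' : t * e ≤ a')
    (hq : ((a : ℤ) - e * t) ^ 2 = (e : ℤ) ^ 2 * (t : ℤ) ^ 2 + (e : ℤ) ^ 2 - σ * (t : ℤ) ^ 2)
    (hq' : ((a' : ℤ) - e * t) ^ 2 = (e : ℤ) ^ 2 * (t : ℤ) ^ 2 + (e : ℤ) ^ 2 - σ * (t : ℤ) ^ 2) : a = a' := by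
  have h1 : (0 : ℤ) ≤ (a : ℤ) - e * t := by
    have : ((t * e : ℕ) : ℤ) ≤ (a : ℤ) := by exact_mod_cast h
    push_cast at this
    linarith
  have h2 : (0 : ℤ) ≤ (a' : ℤ) - e * t := by
    have : ((t * e : ℕ) : ℤ) ≤ (a' : ℤ) := by exact_mod_cast h'
    push_cast at this
    linarith
  have h3 := (pow_left_inj₀ h1 h2 two_ne_zero).mp (hq.trans hq'.symm)
  have h4 : (a : ℤ) = a' := by linarith
  exact_mod_cast h4

/-- `a < t` -/
theorem case2 (σ : ℤ) (k a t : ℕ) (h : Rep σ k a t) (hat : a < t) :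
    ∃ g : ℕ, 1 ≤ g ∧ a * g < t ∧
      ((t : ℤ) - a * g) ^ 2 = (a : ℤ) ^ 2 * (g : ℤ) ^ 2 + σ * ((g : ℤ) ^ 2 - (a : ℤ) ^ 2) := by
  obtain ⟨ha, hσ, _, c, hc, hcc, _⟩ := h
  have ha' : (0 : ℤ) < a := by exact_mod_cast ha
  have hat' : (a : ℤ) < t := by exact_mod_cast hat
  have ht' : (0 : ℤ) < t := by linarith
  have hat2 : (a : ℤ) ^ 2 < (t : ℤ) ^ 2 := pow_lt_pow_left₀ hat' ha'.le two_ne_zero
  have hatp : (0 : ℤ) < a * t := by positivity
  rcases hσ with h1 | ⟨h1, _⟩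
  · subst h1
    have he : (a : ℤ) * t < c := by
      have e1 : ((a : ℤ) * t) ^ 2 < c ^ 2 := by
        rw [hcc]
        have : (0 : ℤ) < (t : ℤ) ^ 2 := by positivity
        have : (0 : ℤ) < (a : ℤ) ^ 2 := by positivity
        linarith
      exact (pow_lt_pow_iff_left₀ hatp.le hc.le two_ne_zero).mp e1
    obtain ⟨e, hee⟩ : ∃ e, e = c - (a : ℤ) * t := ⟨_, rfl⟩
    have he0 : 0 < e := by linarith
    have hce : c = a * t + e := by linarith
    have hq : e * (2 * a * t + e) = (a : ℤ) ^ 2 + (t : ℤ) ^ 2 := by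
      rw [hce] at hcc
      linear_combination hcc
    lift e to ℕ using he0.le
    refine ⟨e, by exact_mod_cast he0, ?_, by linear_combination (-1) * hq⟩
    have e1 : (t : ℤ) * (a * e) < t * t := by
      have e2 : (0 : ℤ) < (e : ℤ) ^ 2 := by positivity
      linarith
    have e2 := lt_of_mul_lt_mul_left e1 ht'.le
    exact_mod_cast e2
  · subst h1
    have he : c < (a : ℤ) * t := by
      have e1 : c ^ 2 < ((a : ℤ) * t) ^ 2 := by
        rw [hcc]
        linarith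
      exact (pow_lt_pow_iff_left₀ hc.le hatp.le two_ne_zero).mp e1
    obtain ⟨e, hee⟩ : ∃ e, e = (a : ℤ) * t - c := ⟨_, rfl⟩
    have he0 : 0 < e := by linarith
    have hce : c = a * t - e := by linarith
    have hq : (t : ℤ) ^ 2 - 2 * a * t * e + e ^ 2 = (a : ℤ) ^ 2 := by
      rw [hce] at hcc
      linear_combination hcc
    have e1 : (t : ℤ) * (a * e) < t * t := by
      have e2 : e * (a * t + c) = (t : ℤ) ^ 2 - (a : ℤ) ^ 2 := by
        rw [hce]; linear_combination (-1) * hq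
      have e3 : (0 : ℤ) < e * c := mul_pos he0 hc
      have e4 : (0 : ℤ) < (a : ℤ) ^ 2 := by positivity
      linarith
    have e2 := lt_of_mul_lt_mul_left e1 ht'.le
    lift e to ℕ using he0.le
    refine ⟨e, by exact_mod_cast he0, ?_, by linear_combination hq⟩
    exact_mod_cast e2

theorem case2_unique (σ : ℤ) (a t t' g : ℕ) (h : a * g < t) (h' : a * g < t')
    (hq : ((t : ℤ) - a * g) ^ 2 = (a : ℤ) ^ 2 * (g : ℤ) ^ 2 + σ * ((g : ℤ) ^ 2 - (a : ℤ) ^ 2))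
    (hq' : ((t' : ℤ) - a * g) ^ 2 = (a : ℤ) ^ 2 * (g : ℤ) ^ 2 + σ * ((g : ℤ) ^ 2 - (a : ℤ) ^ 2)) : t = t' := by
  have h1 : (0 : ℤ) ≤ (t : ℤ) - a * g := by
    have : ((a * g : ℕ) : ℤ) < (t : ℤ) := by exact_mod_cast h
    push_cast at this
    linarith
  have h2 : (0 : ℤ) ≤ (t' : ℤ) - a * g := by
    have : ((a * g : ℕ) : ℤ) < (t' : ℤ) := by exact_mod_cast h'
    push_cast at this
    linarith
  have h3 := (pow_left_inj₀ h1 h2 two_ne_zero).mp (hq.trans hq'.symm)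
  have h4 : (t : ℤ) = t' := by linarith
  exact_mod_cast h4

/-- gap principle for a fixed `a` -/
theorem gap (σ : ℤ) (k k' a t t' : ℕ) (h : Rep σ k a t) (h' : Rep σ k' a t') (htt : t < t') :
    (t : ℤ) ≤ 2 * a * ((t' : ℤ) - t) := by
  obtain ⟨ha, hσ, _, c, hc, hcc, _⟩ := h
  obtain ⟨_, _, _, c', hc', hcc', _⟩ := h'
  have ha' : (0 : ℤ) < a := by exact_mod_cast ha
  have htt' : (t : ℤ) < t' := by exact_mod_cast htt
  have ht0 : (0 : ℤ) ≤ t := by positivity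
  have hlow : ∀ (s d : ℤ), 0 ≤ s → 0 < d → d ^ 2 = (a : ℤ) ^ 2 * s ^ 2 + (a : ℤ) ^ 2 + σ * s ^ 2 →
      a * s ≤ 2 * d := by
    intro s d hs hd hdd
    have e1 : (a * s) ^ 2 ≤ (2 * d) ^ 2 := by
      have e2 : (2 * d) ^ 2 = 4 * d ^ 2 := by ring
      rw [e2, hdd]
      have e3 : 0 ≤ s ^ 2 := by positivity
      have e4 : 0 < (a : ℤ) ^ 2 := by positivity
      rcases hσ with h1 | ⟨h1, h2⟩
      · rw [h1]
        have : 0 ≤ (a : ℤ) ^ 2 * s ^ 2 := by positivity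
        linarith
      · rw [h1]
        have h3 : (2 : ℤ) ^ 2 ≤ (a : ℤ) ^ 2 := pow_le_pow_left₀ (by norm_num) (by exact_mod_cast h2) 2
        have : 2 ^ 2 * s ^ 2 ≤ (a : ℤ) ^ 2 * s ^ 2 := mul_le_mul_of_nonneg_right h3 e3
        linarith
    exact (pow_le_pow_iff_left₀ (by positivity) (by positivity) two_ne_zero).mp e1
  have hl1 := hlow t c ht0 hc hcc
  have hl2 := hlow t' c' (by linarith) hc' hcc'
  have hprod : (c * t' - c' * t) * (c * t' + c' * t) = (a : ℤ) ^ 2 * ((t' : ℤ) ^ 2 - (t : ℤ) ^ 2) := by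
    linear_combination (t' : ℤ) ^ 2 * hcc - (t : ℤ) ^ 2 * hcc'
  have hpos : 0 < (a : ℤ) ^ 2 * ((t' : ℤ) ^ 2 - (t : ℤ) ^ 2) := by
    have e1 : (t : ℤ) ^ 2 < (t' : ℤ) ^ 2 := pow_lt_pow_left₀ htt' ht0 two_ne_zero
    have e2 : 0 < (t' : ℤ) ^ 2 - (t : ℤ) ^ 2 := by linarith
    positivity
  have hsum : 0 < c * t' + c' * t := by
    have e1 : 0 < c * t' := mul_pos hc (by linarith)
    have e2 : 0 ≤ c' * t := mul_nonneg hc'.le ht0
    linarith
  have hdiff : 1 ≤ c * t' - c' * t := by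
    have e1 : 0 < (c * t' - c' * t) * (c * t' + c' * t) := by rw [hprod]; exact hpos
    exact (mul_pos_iff_of_pos_right hsum).mp e1
  have h1 : c * t' + c' * t ≤ (a : ℤ) ^ 2 * ((t' : ℤ) ^ 2 - (t : ℤ) ^ 2) := by
    rw [← hprod]
    have := mul_le_mul_of_nonneg_right hdiff hsum.le
    linarith
  have h2 : (a : ℤ) * t * t' ≤ c * t' + c' * t := by
    have e1 : (a * t) * (t' : ℤ) ≤ 2 * c * t' := mul_le_mul_of_nonneg_right hl1 (by linarith)
    have e2 : (a * t') * (t : ℤ) ≤ 2 * c' * t := mul_le_mul_of_nonneg_right hl2 ht0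
    linarith
  by_contra hcon
  have h3 : 2 * a * ((t' : ℤ) - t) < t := not_le.mp hcon
  have h4 : (2 * a * ((t' : ℤ) - t)) * (a * ((t' : ℤ) + t)) < t * (a * ((t' : ℤ) + t)) := by
    apply mul_lt_mul_of_pos_right h3
    have : (0 : ℤ) < t' + t := by linarith
    positivity
  have h5 : (t : ℤ) * (a * ((t' : ℤ) + t)) ≤ t * (a * (2 * t')) := by
    apply mul_le_mul_of_nonneg_left _ ht0
    apply mul_le_mul_of_nonneg_left _ ha'.le
    linarith
  linarith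

end Pool.Agent.Helper590.Duj
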