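import Mathlib
import Pool.Agent.Helper590.Duj.Count

set_option autoImplicit false

namespace Pool.Agent.Helper590.Duj

open Finset

theorem enc_inj (j e e' t t' w : ℕ) (h1 : 2 ^ j ≤ t) (h2 : t < 2 ^ (j + 1)) (h1' : 2 ^ j ≤ t')
    (h2' : t' < 2 ^ (j + 1)) (hw : w + 2 ^ j = e * 2 ^ j + t) (hw' : w + 2 ^ j = e' * 2 ^ j + t') :
    e = e' ∧ t = t' := by
  rw [pow_succ] at h2 h2'
  generalize 2 ^ j = p at *
  rcases lt_trichotomy e e' with h | h | h
  · exfalso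
    have : (e + 1) * p ≤ e' * p := Nat.mul_le_mul_right _ h
    rw [add_mul, one_mul] at this
    omega
  · subst h
    exact ⟨rfl, by omega⟩
  · exfalso
    have : (e' + 1) * p ≤ e * p := Nat.mul_le_mul_right _ h
    rw [add_mul, one_mul] at this
    omega

theorem rep_le (σ : ℤ) (k a t K : ℕ) (h : Rep σ k a t) (hk : k ≤ K) : 2 * a ^ 2 * t ≤ K :=
  h.2.2.1.trans hk

open Classical in
theorem count1 (σ : ℤ) (K : ℕ) :
    ((range (K + 1)).filter (fun k => ∃ a t, 1 ≤ t ∧ t ≤ a ∧ Rep σ k a t)).card ≤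
      (Nat.log 2 K + 1) * (2 * Nat.sqrt K) := by
  have key := card_le_card_of_forall_subsingleton
    (s := (range (K + 1)).filter (fun k => ∃ a t, 1 ≤ t ∧ t ≤ a ∧ Rep σ k a t))
    (t := range (Nat.log 2 K + 1) ×ˢ range (2 * Nat.sqrt K))
    (fun k (p : ℕ × ℕ) => ∃ a t e, Rep σ k a t ∧ t * e ≤ a ∧
      ((a : ℤ) - e * t) ^ 2 = (e : ℤ) ^ 2 * (t : ℤ) ^ 2 + (e : ℤ) ^ 2 - σ * (t : ℤ) ^ 2 ∧
      2 ^ p.1 ≤ t ∧ t < 2 ^ (p.1 + 1) ∧ p.2 + 2 ^ p.1 = e * 2 ^ p.1 + t) ?_ ?_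
  · simpa using key
  · intro k hk
    rw [mem_filter, mem_range] at hk
    obtain ⟨hkK, a, t, ht, hta, hrep⟩ := hk
    obtain ⟨e, he, heq⟩ := case1 σ k a t hrep ht hta
    have hb := rep_le σ k a t K hrep (by omega)
    have ha1 : 1 ≤ a := hrep.1
    have hasq : a ^ 2 ≤ K := by
      have : a ^ 2 * 1 ≤ a ^ 2 * t := Nat.mul_le_mul_left _ ht
      nlinarith
    have haS : a ≤ Nat.sqrt K := Nat.le_sqrt'.mpr hasq
    have htK : t ≤ K := by
      have h1 : a * 1 ≤ a * a := Nat.mul_le_mul_left _ ha1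
      nlinarith
    have h2j : 2 ^ Nat.log 2 t ≤ t := Nat.pow_log_le_self 2 (by omega)
    have h2j' : t < 2 ^ (Nat.log 2 t + 1) := Nat.lt_pow_succ_log_self (by norm_num) t
    refine ⟨(Nat.log 2 t, e * 2 ^ Nat.log 2 t + t - 2 ^ Nat.log 2 t), ?_, a, t, e, hrep, he, heq, h2j, h2j', ?_⟩
    · rw [mem_product, mem_range, mem_range]
      refine ⟨?_, ?_⟩
      · have := Nat.log_mono_right (b := 2) htK
        simp only
        omega
      · simp only
        rw [pow_succ] at h2j'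
        have h3 : (e + 1) * 2 ^ Nat.log 2 t ≤ (e + 1) * t := Nat.mul_le_mul_left _ h2j
        generalize 2 ^ Nat.log 2 t = p at *
        have h4 : (e + 1) * p = e * p + p := by ring
        have h5 : (e + 1) * t = t * e + t := by ring
        omega
    · simp only
      omega
  · intro p hp k1 hk1 k2 hk2
    obtain ⟨_, a, t, e, hrep, he, heq, h1, h2, h3⟩ := hk1
    obtain ⟨_, a', t', e', hrep', he', heq', h1', h2', h3'⟩ := hk2
    obtain ⟨hee, htt⟩ := enc_inj p.1 e e' t t' p.2 h1 h2 h1' h2' h3 h3'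
    subst hee
    subst htt
    have haa := case1_unique σ a a' t e he he' heq heq'
    subst haa
    exact rep_unique σ k1 k2 a t hrep hrep'

open Classical in
theorem count2 (σ : ℤ) (K : ℕ) :
    ((range (K + 1)).filter (fun k => ∃ a t, Nat.sqrt (Nat.sqrt K) < a ∧ a < t ∧ Rep σ k a t)).card ≤
      (Nat.log 2 K + 1) * (Nat.sqrt K + 1) := by
  have key := card_le_card_of_forall_subsingleton
    (s := (range (K + 1)).filter (fun k => ∃ a t, Nat.sqrt (Nat.sqrt K) < a ∧ a < t ∧ Rep σ k a t))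
    (t := range (Nat.log 2 K + 1) ×ˢ range (Nat.sqrt K + 1))
    (fun k (p : ℕ × ℕ) => ∃ a t g, Rep σ k a t ∧ a * g < t ∧
      ((t : ℤ) - a * g) ^ 2 = (a : ℤ) ^ 2 * (g : ℤ) ^ 2 + σ * ((g : ℤ) ^ 2 - (a : ℤ) ^ 2) ∧
      2 ^ p.1 ≤ a ∧ a < 2 ^ (p.1 + 1) ∧ p.2 + 2 ^ p.1 = g * 2 ^ p.1 + a) ?_ ?_
  · simpa using key
  · intro k hk
    rw [mem_filter, mem_range] at hk
    obtain ⟨hkK, a, t, hAa, hat, hrep⟩ := hk
    obtain ⟨g, hg1, hg, heq⟩ := case2 σ k a t hrep hat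
    have hb := rep_le σ k a t K hrep (by omega)
    have ha1 : 1 ≤ a := hrep.1
    have haS : Nat.sqrt K < a ^ 2 := Nat.sqrt_lt'.mp hAa
    have hKS : K < (Nat.sqrt K + 1) ^ 2 := Nat.lt_succ_sqrt' K
    have htK : a ≤ K := by
      have h1 : a * 1 ≤ a * a := Nat.mul_le_mul_left _ ha1
      have h2 : a * a * 1 ≤ a * a * t := Nat.mul_le_mul_left _ (by omega)
      nlinarith
    have hagS : 2 * (a * g) ≤ Nat.sqrt K := by
      have e1 : 2 * (a * g) * (Nat.sqrt K + 1) ≤ 2 * (a * g) * a ^ 2 := Nat.mul_le_mul_left _ haS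
      have e2 : 2 * a ^ 2 * (a * g) ≤ 2 * a ^ 2 * t := Nat.mul_le_mul_left _ hg.le
      have e3 : 2 * (a * g) * (Nat.sqrt K + 1) < (Nat.sqrt K + 1) * (Nat.sqrt K + 1) := by
        have e4 : 2 * (a * g) * a ^ 2 = 2 * a ^ 2 * (a * g) := by ring
        have e5 : (Nat.sqrt K + 1) ^ 2 = (Nat.sqrt K + 1) * (Nat.sqrt K + 1) := by ring
        omega
      have e4 := Nat.lt_of_mul_lt_mul_right e3
      omega
    have h2j : 2 ^ Nat.log 2 a ≤ a := Nat.pow_log_le_self 2 (by omega)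
    have h2j' : a < 2 ^ (Nat.log 2 a + 1) := Nat.lt_pow_succ_log_self (by norm_num) a
    refine ⟨(Nat.log 2 a, g * 2 ^ Nat.log 2 a + a - 2 ^ Nat.log 2 a), ?_, a, t, g, hrep, hg, heq, h2j, h2j', ?_⟩
    · rw [mem_product, mem_range, mem_range]
      refine ⟨?_, ?_⟩
      · have := Nat.log_mono_right (b := 2) htK
        simp only
        omega
      · simp only
        rw [pow_succ] at h2j'
        have h3 : (g + 1) * 2 ^ Nat.log 2 a ≤ (g + 1) * a := Nat.mul_le_mul_left _ h2j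
        generalize 2 ^ Nat.log 2 a = p at *
        have h4 : (g + 1) * p = g * p + p := by ring
        have h5 : (g + 1) * a = a * g + a := by ring
        have h6 : a * 1 ≤ a * g := Nat.mul_le_mul_left _ hg1
        omega
    · simp only
      omega
  · intro p hp k1 hk1 k2 hk2
    obtain ⟨_, a, t, g, hrep, he, heq, h1, h2, h3⟩ := hk1
    obtain ⟨_, a', t', g', hrep', he', heq', h1', h2', h3'⟩ := hk2
    obtain ⟨hee, htt⟩ := enc_inj p.1 g g' a a' p.2 h1 h2 h1' h2' h3 h3'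
    subst hee
    subst htt
    have haa := case2_unique σ a t t' g he he' heq heq'
    subst haa
    exact rep_unique σ k1 k2 a t hrep hrep'

theorem gap_code (σ : ℤ) (k k' a j i u u' : ℕ) (h : Rep σ k a (2 ^ j + u)) (h' : Rep σ k' a (2 ^ j + u'))
    (hi : i * 2 ^ j ≤ 2 * a * u) (hi' : 2 * a * u' < (i + 1) * 2 ^ j) (huu : u < u') : False := by
  have h1 := gap σ k k' a _ _ h h' (by omega)
  have h2 : 2 ^ j + u ≤ 2 * a * (u' - u) := by
    have e1 : ((u' - u : ℕ) : ℤ) = (u' : ℤ) - u := by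
      rw [Nat.cast_sub huu.le]
    have e2 : ((2 ^ j + u : ℕ) : ℤ) ≤ ((2 * a * (u' - u) : ℕ) : ℤ) := by
      push_cast [e1] at h1 ⊢
      linarith
    exact_mod_cast e2
  have h3 : 2 * a * (u' - u) + 2 * a * u = 2 * a * u' := by
    rw [← Nat.mul_add]
    congr 1
    omega
  rw [add_mul, one_mul] at hi'
  omega

open Classical in
theorem count3 (σ : ℤ) (K A : ℕ) :
    ((range (K + 1)).filter (fun k => ∃ a t, a ≤ A ∧ a < t ∧ Rep σ k a t)).card ≤
      (Nat.log 2 K + 1) * ((A + 1) * (2 * A)) := by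
  have key := card_le_card_of_forall_subsingleton
    (s := (range (K + 1)).filter (fun k => ∃ a t, a ≤ A ∧ a < t ∧ Rep σ k a t))
    (t := range (Nat.log 2 K + 1) ×ˢ (range (A + 1) ×ˢ range (2 * A)))
    (fun k (p : ℕ × ℕ × ℕ) => ∃ u, Rep σ k p.2.1 (2 ^ p.1 + u) ∧
      p.2.2 * 2 ^ p.1 ≤ 2 * p.2.1 * u ∧ 2 * p.2.1 * u < (p.2.2 + 1) * 2 ^ p.1) ?_ ?_
  · simpa using key
  · intro k hk
    rw [mem_filter, mem_range] at hk
    obtain ⟨hkK, a, t, hAa, hat, hrep⟩ := hk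
    have hb := rep_le σ k a t K hrep (by omega)
    have ha1 : 1 ≤ a := hrep.1
    have htK : t ≤ K := by
      have h1 : a * 1 ≤ a * a := Nat.mul_le_mul_left _ ha1
      nlinarith
    have h2j : 2 ^ Nat.log 2 t ≤ t := Nat.pow_log_le_self 2 (by omega)
    have h2j' : t < 2 ^ (Nat.log 2 t + 1) := Nat.lt_pow_succ_log_self (by norm_num) t
    have hjK := Nat.log_mono_right (b := 2) htK
    rw [pow_succ] at h2j'
    obtain ⟨u, hu⟩ := Nat.exists_eq_add_of_le h2j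
    have hp0 : 0 < 2 ^ Nat.log 2 t := by positivity
    refine ⟨(Nat.log 2 t, (a, 2 * a * u / 2 ^ Nat.log 2 t)), ?_, u, ?_, ?_, ?_⟩
    · rw [mem_product, mem_product, mem_range, mem_range, mem_range]
      refine ⟨by simp only; omega, by simp only; omega, ?_⟩
      simp only
      have hu2 : u < 2 ^ Nat.log 2 t := by omega
      have h3 : 2 * a * u / 2 ^ Nat.log 2 t < 2 * a := by
        apply Nat.div_lt_of_lt_mul
        rw [mul_comm (2 ^ Nat.log 2 t)]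
        exact Nat.mul_lt_mul_of_pos_left hu2 (by omega)
      omega
    · simp only
      rw [← hu]
      exact hrep
    · simp only
      exact Nat.div_mul_le_self _ _
    · simp only
      exact (Nat.div_lt_iff_lt_mul hp0).mp (Nat.lt_succ_self _)
  · intro p hp k1 hk1 k2 hk2
    obtain ⟨_, u, hrep, h1, h2⟩ := hk1
    obtain ⟨_, u', hrep', h1', h2'⟩ := hk2
    rcases lt_trichotomy u u' with h | h | h
    · exact (gap_code σ k1 k2 _ _ _ u u' hrep hrep' h1 h2' h).elim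
    · subst h
      exact rep_unique σ k1 k2 _ _ hrep hrep'
    · exact (gap_code σ k2 k1 _ _ _ u' u hrep' hrep h1' h2 h).elim

open Classical in
theorem count0 (K : ℕ) :
    ((range (K + 1)).filter (fun k => ∃ a, 1 ≤ a ∧ k = 2 * a ^ 2)).card ≤ Nat.sqrt K := by
  have key := card_le_card_of_forall_subsingleton
    (s := (range (K + 1)).filter (fun k => ∃ a, 1 ≤ a ∧ k = 2 * a ^ 2))
    (t := Icc 1 (Nat.sqrt K))
    (fun k a => k = 2 * a ^ 2) ?_ ?_
  · simpa using key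
  · intro k hk
    rw [mem_filter, mem_range] at hk
    obtain ⟨hkK, a, ha, hka⟩ := hk
    refine ⟨a, ?_, hka⟩
    rw [mem_Icc]
    exact ⟨ha, Nat.le_sqrt'.mpr (by omega)⟩
  · intro a _ k1 hk1 k2 hk2
    rw [hk1.2, hk2.2]

theorem rep_zero (σ : ℤ) (k a : ℕ) (h : Rep σ k a 0) : k = 2 * a ^ 2 := by
  obtain ⟨ha, _, _, c, hc, hcc, hk⟩ := h
  have h1 : c ^ 2 = (a : ℤ) ^ 2 := by
    rw [hcc]; push_cast; ring
  have h2 : c = a := (pow_left_inj₀ hc.le (by positivity) two_ne_zero).mp h1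
  have h3 : (k : ℤ) = 2 * (a : ℤ) ^ 2 := by
    rw [hk, h2]; push_cast; ring
  exact_mod_cast h3

/-- the number of `k ≤ K` with an extra solution -/
theorem count_total (K : ℕ) (hK : 1 ≤ K) (E : Finset ℕ)
    (hE : ∀ k ∈ E, k ≤ K ∧ ∃ a t : ℕ, Rep 1 k a t ∨ Rep (-1) k a t) :
    E.card ≤ 17 * (Nat.log 2 K + 1) * Nat.sqrt K := by
  classical
  have hsub : E ⊆ ((range (K + 1)).filter (fun k => ∃ a, 1 ≤ a ∧ k = 2 * a ^ 2)) ∪
      ((((range (K + 1)).filter (fun k => ∃ a t, 1 ≤ t ∧ t ≤ a ∧ Rep 1 k a t)) ∪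
        ((range (K + 1)).filter (fun k => ∃ a t, Nat.sqrt (Nat.sqrt K) < a ∧ a < t ∧ Rep 1 k a t)) ∪
        ((range (K + 1)).filter (fun k => ∃ a t, a ≤ Nat.sqrt (Nat.sqrt K) ∧ a < t ∧ Rep 1 k a t))) ∪
      (((range (K + 1)).filter (fun k => ∃ a t, 1 ≤ t ∧ t ≤ a ∧ Rep (-1) k a t)) ∪
        ((range (K + 1)).filter (fun k => ∃ a t, Nat.sqrt (Nat.sqrt K) < a ∧ a < t ∧ Rep (-1) k a t)) ∪
        ((range (K + 1)).filter (fun k => ∃ a t, a ≤ Nat.sqrt (Nat.sqrt K) ∧ a < t ∧ Rep (-1) k a t)))) := by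
    intro k hk
    obtain ⟨hkK, a, t, hrep⟩ := hE k hk
    have hkr : k ∈ range (K + 1) := mem_range.mpr (by omega)
    rw [mem_union]
    rcases Nat.eq_zero_or_pos t with ht | ht
    · left
      subst ht
      rw [mem_filter]
      rcases hrep with h | h
      · exact ⟨hkr, a, h.1, rep_zero 1 k a h⟩
      · exact ⟨hkr, a, h.1, rep_zero (-1) k a h⟩
    · right
      rw [mem_union]
      rcases hrep with h | h
      · left
        rw [mem_union, mem_union]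
        rcases le_or_gt t a with h1 | h1
        · left; left
          rw [mem_filter]
          exact ⟨hkr, a, t, ht, h1, h⟩
        · rcases le_or_gt a (Nat.sqrt (Nat.sqrt K)) with h2 | h2
          · right
            rw [mem_filter]
            exact ⟨hkr, a, t, h2, h1, h⟩
          · left; right
            rw [mem_filter]
            exact ⟨hkr, a, t, h2, h1, h⟩
      · right
        rw [mem_union, mem_union]
        rcases le_or_gt t a with h1 | h1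
        · left; left
          rw [mem_filter]
          exact ⟨hkr, a, t, ht, h1, h⟩
        · rcases le_or_gt a (Nat.sqrt (Nat.sqrt K)) with h2 | h2
          · right
            rw [mem_filter]
            exact ⟨hkr, a, t, h2, h1, h⟩
          · left; right
            rw [mem_filter]
            exact ⟨hkr, a, t, h2, h1, h⟩
  have h0 := count0 K
  have h1 := count1 1 K
  have h2 := count2 1 K
  have h3 := count3 1 K (Nat.sqrt (Nat.sqrt K))
  have h1' := count1 (-1) K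
  have h2' := count2 (-1) K
  have h3' := count3 (-1) K (Nat.sqrt (Nat.sqrt K))
  have hcard := card_le_card hsub
  have u0 := card_union_le ((range (K + 1)).filter (fun k => ∃ a, 1 ≤ a ∧ k = 2 * a ^ 2))
      ((((range (K + 1)).filter (fun k => ∃ a t, 1 ≤ t ∧ t ≤ a ∧ Rep 1 k a t)) ∪
        ((range (K + 1)).filter (fun k => ∃ a t, Nat.sqrt (Nat.sqrt K) < a ∧ a < t ∧ Rep 1 k a t)) ∪
        ((range (K + 1)).filter (fun k => ∃ a t, a ≤ Nat.sqrt (Nat.sqrt K) ∧ a < t ∧ Rep 1 k a t))) ∪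
      (((range (K + 1)).filter (fun k => ∃ a t, 1 ≤ t ∧ t ≤ a ∧ Rep (-1) k a t)) ∪
        ((range (K + 1)).filter (fun k => ∃ a t, Nat.sqrt (Nat.sqrt K) < a ∧ a < t ∧ Rep (-1) k a t)) ∪
        ((range (K + 1)).filter (fun k => ∃ a t, a ≤ Nat.sqrt (Nat.sqrt K) ∧ a < t ∧ Rep (-1) k a t))))
  have u1 := card_union_le
      (((range (K + 1)).filter (fun k => ∃ a t, 1 ≤ t ∧ t ≤ a ∧ Rep 1 k a t)) ∪
        ((range (K + 1)).filter (fun k => ∃ a t, Nat.sqrt (Nat.sqrt K) < a ∧ a < t ∧ Rep 1 k a t)) ∪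
        ((range (K + 1)).filter (fun k => ∃ a t, a ≤ Nat.sqrt (Nat.sqrt K) ∧ a < t ∧ Rep 1 k a t)))
      (((range (K + 1)).filter (fun k => ∃ a t, 1 ≤ t ∧ t ≤ a ∧ Rep (-1) k a t)) ∪
        ((range (K + 1)).filter (fun k => ∃ a t, Nat.sqrt (Nat.sqrt K) < a ∧ a < t ∧ Rep (-1) k a t)) ∪
        ((range (K + 1)).filter (fun k => ∃ a t, a ≤ Nat.sqrt (Nat.sqrt K) ∧ a < t ∧ Rep (-1) k a t)))
  have u2 := card_union_le
      (((range (K + 1)).filter (fun k => ∃ a t, 1 ≤ t ∧ t ≤ a ∧ Rep 1 k a t)) ∪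
        ((range (K + 1)).filter (fun k => ∃ a t, Nat.sqrt (Nat.sqrt K) < a ∧ a < t ∧ Rep 1 k a t)))
        ((range (K + 1)).filter (fun k => ∃ a t, a ≤ Nat.sqrt (Nat.sqrt K) ∧ a < t ∧ Rep 1 k a t))
  have u3 := card_union_le
      ((range (K + 1)).filter (fun k => ∃ a t, 1 ≤ t ∧ t ≤ a ∧ Rep 1 k a t))
        ((range (K + 1)).filter (fun k => ∃ a t, Nat.sqrt (Nat.sqrt K) < a ∧ a < t ∧ Rep 1 k a t))
  have u4 := card_union_le
      (((range (K + 1)).filter (fun k => ∃ a t, 1 ≤ t ∧ t ≤ a ∧ Rep (-1) k a t)) ∪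
        ((range (K + 1)).filter (fun k => ∃ a t, Nat.sqrt (Nat.sqrt K) < a ∧ a < t ∧ Rep (-1) k a t)))
        ((range (K + 1)).filter (fun k => ∃ a t, a ≤ Nat.sqrt (Nat.sqrt K) ∧ a < t ∧ Rep (-1) k a t))
  have u5 := card_union_le
      ((range (K + 1)).filter (fun k => ∃ a t, 1 ≤ t ∧ t ≤ a ∧ Rep (-1) k a t))
        ((range (K + 1)).filter (fun k => ∃ a t, Nat.sqrt (Nat.sqrt K) < a ∧ a < t ∧ Rep (-1) k a t))
  have hS1 : 1 ≤ Nat.sqrt K := Nat.le_sqrt'.mpr (by omega)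
  have hA : (Nat.sqrt (Nat.sqrt K) + 1) * (2 * Nat.sqrt (Nat.sqrt K)) ≤ 4 * Nat.sqrt K := by
    have e1 : Nat.sqrt (Nat.sqrt K) ^ 2 ≤ Nat.sqrt K := Nat.sqrt_le' _
    have e2 : Nat.sqrt (Nat.sqrt K) ≤ Nat.sqrt (Nat.sqrt K) ^ 2 := Nat.le_self_pow two_ne_zero _
    nlinarith
  have hA' : (Nat.log 2 K + 1) * ((Nat.sqrt (Nat.sqrt K) + 1) * (2 * Nat.sqrt (Nat.sqrt K))) ≤
      (Nat.log 2 K + 1) * (4 * Nat.sqrt K) := Nat.mul_le_mul_left _ hA
  have hfin : Nat.sqrt K + 2 * ((Nat.log 2 K + 1) * (2 * Nat.sqrt K) + (Nat.log 2 K + 1) * (Nat.sqrt K + 1) +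
      (Nat.log 2 K + 1) * (4 * Nat.sqrt K)) ≤ 17 * (Nat.log 2 K + 1) * Nat.sqrt K := by
    have e1 : (Nat.log 2 K + 1) * 1 ≤ (Nat.log 2 K + 1) * Nat.sqrt K := Nat.mul_le_mul_left _ hS1
    have e2 : 1 * Nat.sqrt K ≤ (Nat.log 2 K + 1) * Nat.sqrt K := Nat.mul_le_mul_right _ (by omega)
    nlinarith
  omega

end Pool.Agent.Helper590.Duj
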