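import Mathlib
import Pool.Agent.Helper590.Duj.Count2

set_option autoImplicit false

namespace Pool.Agent.Helper590.Duj

open Finset

/-- the sign pairs that occur -/
def Ok (α β : ℤ) : Prop := (α = 1 ∧ β = 1) ∨ (α = -1 ∧ β = 1) ∨ (α = 1 ∧ β = -1)

/-- `w^2 = u^2 v^2 + α u^2 + β v^2` for some `w ≥ 0` -/
def Q (α β : ℤ) (u v : ℕ) : Prop :=
  ∃ w : ℤ, 0 ≤ w ∧ w ^ 2 = (u : ℤ) ^ 2 * (v : ℤ) ^ 2 + α * (u : ℤ) ^ 2 + β * (v : ℤ) ^ 2

/-- one step of the descent: the larger entry `v` is replaced by `e` -/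
def Step (α β : ℤ) (u v e : ℕ) : Prop :=
  e * u ≤ v ∧ ((v : ℤ) - e * u) ^ 2 = (u : ℤ) ^ 2 * (e : ℤ) ^ 2 + (-(α * β)) * (u : ℤ) ^ 2 + β * (e : ℤ) ^ 2

theorem ok_next (α β : ℤ) (h : Ok α β) : Ok (-(α * β)) β := by
  rcases h with ⟨h1, h2⟩ | ⟨h1, h2⟩ | ⟨h1, h2⟩ <;> rw [h1, h2] <;> unfold Ok <;> norm_num

theorem ok_swap (α β : ℤ) (h : Ok α β) : Ok β α := by
  rcases h with ⟨h1, h2⟩ | ⟨h1, h2⟩ | ⟨h1, h2⟩ <;> rw [h1, h2] <;> unfold Ok <;> norm_num

theorem q_swap (α β : ℤ) (u v : ℕ) (h : Q α β u v) : Q β α v u := by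
  obtain ⟨w, hw, h1⟩ := h
  exact ⟨w, hw, by rw [h1]; ring⟩

theorem q_of_step (α β : ℤ) (u v e : ℕ) (h : Step α β u v e) : Q (-(α * β)) β u e := by
  obtain ⟨h1, h2⟩ := h
  refine ⟨(v : ℤ) - e * u, ?_, h2⟩
  have : ((e * u : ℕ) : ℤ) ≤ v := by exact_mod_cast h1
  push_cast at this
  linarith

theorem step_unique (α β : ℤ) (u v v' e : ℕ) (h : Step α β u v e) (h' : Step α β u v' e) : v = v' := by
  obtain ⟨h1, h2⟩ := h
  obtain ⟨h1', h2'⟩ := h'
  have e1 : (0 : ℤ) ≤ (v : ℤ) - e * u := by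
    have : ((e * u : ℕ) : ℤ) ≤ v := by exact_mod_cast h1
    push_cast at this
    linarith
  have e2 : (0 : ℤ) ≤ (v' : ℤ) - e * u := by
    have : ((e * u : ℕ) : ℤ) ≤ v' := by exact_mod_cast h1'
    push_cast at this
    linarith
  have e3 := (pow_left_inj₀ e1 e2 two_ne_zero).mp (h2.trans h2'.symm)
  have e4 : (v : ℤ) = v' := by linarith
  exact_mod_cast e4

theorem step_exists (α β : ℤ) (u v : ℕ) (h : Ok α β) (hu : 1 ≤ u) (huv : u ≤ v) (hQ : Q α β u v) :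
    ∃ e : ℕ, Step α β u v e ∧ (u < v → 1 ≤ e) := by
  obtain ⟨w, hw, hww⟩ := hQ
  have hu' : (0 : ℤ) < u := by exact_mod_cast hu
  have huv' : (u : ℤ) ≤ v := by exact_mod_cast huv
  have hv' : (0 : ℤ) < v := by linarith
  have huv2 : (u : ℤ) ^ 2 ≤ (v : ℤ) ^ 2 := pow_le_pow_left₀ hu'.le huv' 2
  have hu2 : (0 : ℤ) < (u : ℤ) ^ 2 := by positivity
  have hlt : u < v → (u : ℤ) ^ 2 < (v : ℤ) ^ 2 := by
    intro h1
    exact pow_lt_pow_left₀ (by exact_mod_cast h1) hu'.le two_ne_zero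
  have caseβ : β = 1 → (α = 1 ∨ α = -1) → ∃ e : ℕ, Step α β u v e ∧ (u < v → 1 ≤ e) := by
    intro hβ hα
    subst hβ
    have hαu : -(u : ℤ) ^ 2 ≤ α * (u : ℤ) ^ 2 ∧ α * (u : ℤ) ^ 2 ≤ (u : ℤ) ^ 2 := by
      rcases hα with h1 | h1 <;> rw [h1] <;> constructor <;> linarith
    have hle : (u : ℤ) * v ≤ w := by
      have e1 : ((u : ℤ) * v) ^ 2 ≤ w ^ 2 := by
        rw [hww]
        linarith [hαu.1]
      exact (pow_le_pow_iff_left₀ (by positivity) hw two_ne_zero).mp e1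
    obtain ⟨e, hee⟩ : ∃ e, e = w - (u : ℤ) * v := ⟨_, rfl⟩
    have he0 : 0 ≤ e := by linarith
    have hwe : w = u * v + e := by linarith
    have hq : e * (2 * u * v + e) = α * (u : ℤ) ^ 2 + (v : ℤ) ^ 2 := by
      rw [hwe] at hww
      linear_combination hww
    lift e to ℕ using he0
    refine ⟨e, ⟨?_, by linear_combination (-1) * hq⟩, ?_⟩
    · have e1 : (v : ℤ) * (e * u) ≤ v * v := by
        have e2 : (0 : ℤ) ≤ (e : ℤ) ^ 2 := by positivity
        linarith [hαu.2]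
      have e2 := le_of_mul_le_mul_left e1 hv'
      exact_mod_cast e2
    · intro h1
      rcases Nat.eq_zero_or_pos e with h2 | h2
      · exfalso
        rw [h2] at hq
        have := hlt h1
        push_cast at hq
        linarith [hαu.1]
      · exact h2
  rcases h with ⟨h1, h2⟩ | ⟨h1, h2⟩ | ⟨h1, h2⟩
  · exact caseβ h2 (Or.inl h1)
  · exact caseβ h2 (Or.inr h1)
  · subst h1
    subst h2
    have hle : w ≤ (u : ℤ) * v := by
      have e1 : w ^ 2 ≤ ((u : ℤ) * v) ^ 2 := by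
        rw [hww]
        linarith
      exact (pow_le_pow_iff_left₀ hw (by positivity) two_ne_zero).mp e1
    obtain ⟨e, hee⟩ : ∃ e, e = (u : ℤ) * v - w := ⟨_, rfl⟩
    have he0 : 0 ≤ e := by linarith
    have hwe : w = u * v - e := by linarith
    have hq : (v : ℤ) ^ 2 - 2 * u * v * e + e ^ 2 = (u : ℤ) ^ 2 := by
      rw [hwe] at hww
      linear_combination hww
    have e1 : (v : ℤ) * (e * u) ≤ v * v := by
      have e2 : e * (u * v + w) = (v : ℤ) ^ 2 - (u : ℤ) ^ 2 := by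
        rw [hwe]; linear_combination (-1) * hq
      have e3 : (0 : ℤ) ≤ e * w := mul_nonneg he0 hw
      linarith
    have e2 := le_of_mul_le_mul_left e1 hv'
    lift e to ℕ using he0
    refine ⟨e, ⟨by exact_mod_cast e2, by linear_combination hq⟩, ?_⟩
    intro h1
    rcases Nat.eq_zero_or_pos e with h2 | h2
    · exfalso
      rw [h2] at hq
      have := hlt h1
      push_cast at hq
      linarith
    · exact h2

/-- gap principle for a fixed smaller entry `u` -/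
theorem q_gap (α β : ℤ) (u v v' : ℕ) (hok : Ok α β) (hu : 1 ≤ u) (h2 : β = -1 → 2 ≤ u) (huv : u ≤ v)
    (hvv : v < v') (h : Q α β u v) (h' : Q α β u v') : v ≤ 2 * u * (v' - v) := by
  obtain ⟨w, hw, hww⟩ := h
  obtain ⟨w', hw', hww'⟩ := h'
  have hu' : (0 : ℤ) < u := by exact_mod_cast hu
  have huv' : (u : ℤ) ≤ v := by exact_mod_cast huv
  have hv' : (0 : ℤ) < v := by linarith
  have hvv' : (v : ℤ) < v' := by exact_mod_cast hvv
  have hlow : ∀ (s d : ℤ), (u : ℤ) ≤ s → 0 ≤ d → d ^ 2 = (u : ℤ) ^ 2 * s ^ 2 + α * (u : ℤ) ^ 2 + β * s ^ 2 →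
      u * s ≤ 2 * d := by
    intro s d hs hd hdd
    have hs0 : 0 < s := by linarith
    have e1 : (u * s) ^ 2 ≤ (2 * d) ^ 2 := by
      have e2 : (2 * d) ^ 2 = 4 * d ^ 2 := by ring
      rw [e2, hdd]
      have e3 : 0 < s ^ 2 := by positivity
      have e4 : 0 < (u : ℤ) ^ 2 := by positivity
      have e5 : (u : ℤ) ^ 2 ≤ s ^ 2 := pow_le_pow_left₀ hu'.le hs 2
      have e6 : 0 < (u : ℤ) ^ 2 * s ^ 2 := by positivity
      rcases hok with ⟨h1, h3⟩ | ⟨h1, h3⟩ | ⟨h1, h3⟩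
      · rw [h1, h3]; linarith
      · rw [h1, h3]; linarith
      · have h4 : (2 : ℤ) ^ 2 ≤ (u : ℤ) ^ 2 := pow_le_pow_left₀ (by norm_num) (by exact_mod_cast h2 h3) 2
        have : 2 ^ 2 * s ^ 2 ≤ (u : ℤ) ^ 2 * s ^ 2 := mul_le_mul_of_nonneg_right h4 e3.le
        rw [h1, h3]; linarith
    exact (pow_le_pow_iff_left₀ (by positivity) (by positivity) two_ne_zero).mp e1
  have hl1 := hlow v w huv' hw hww
  have hl2 := hlow v' w' (by linarith) hw' hww'
  have huv0 : (0 : ℤ) < u * v := by positivity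
  have huv0' : (0 : ℤ) < u * v' := mul_pos hu' (by linarith)
  have hsum : 0 < w * v' + w' * v := by
    have e1 : 0 < w * v' := mul_pos (by linarith) (by linarith)
    have e2 : 0 < w' * v := mul_pos (by linarith) hv'
    linarith
  have hv2 : (v : ℤ) ^ 2 < (v' : ℤ) ^ 2 := pow_lt_pow_left₀ hvv' hv'.le two_ne_zero
  have hpos : 0 < (u : ℤ) ^ 2 * ((v' : ℤ) ^ 2 - (v : ℤ) ^ 2) := by
    have e2 : 0 < (v' : ℤ) ^ 2 - (v : ℤ) ^ 2 := by linarith
    positivity
  have hprod : (w * v' - w' * v) * (w * v' + w' * v) = α * ((u : ℤ) ^ 2 * ((v' : ℤ) ^ 2 - (v : ℤ) ^ 2)) := by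
    linear_combination (v' : ℤ) ^ 2 * hww - (v : ℤ) ^ 2 * hww'
  have h1 : w * v' + w' * v ≤ (u : ℤ) ^ 2 * ((v' : ℤ) ^ 2 - (v : ℤ) ^ 2) := by
    have hα : α = 1 ∨ α = -1 := by
      rcases hok with ⟨h1, h3⟩ | ⟨h1, h3⟩ | ⟨h1, h3⟩
      · exact Or.inl h1
      · exact Or.inr h1
      · exact Or.inl h1
    rcases hα with hα | hα
    · rw [hα, one_mul] at hprod
      have e1 : 0 < (w * v' - w' * v) * (w * v' + w' * v) := by rw [hprod]; exact hpos
      have e2 : 1 ≤ w * v' - w' * v := (mul_pos_iff_of_pos_right hsum).mp e1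
      have := mul_le_mul_of_nonneg_right e2 hsum.le
      linarith
    · rw [hα] at hprod
      have e1 : 0 < (w' * v - w * v') * (w * v' + w' * v) := by linarith
      have e2 : 1 ≤ w' * v - w * v' := (mul_pos_iff_of_pos_right hsum).mp e1
      have := mul_le_mul_of_nonneg_right e2 hsum.le
      linarith
  have h3 : (u : ℤ) * v * v' ≤ w * v' + w' * v := by
    have e1 : (u * v) * (v' : ℤ) ≤ 2 * w * v' := mul_le_mul_of_nonneg_right hl1 (by linarith)
    have e2 : (u * v') * (v : ℤ) ≤ 2 * w' * v := mul_le_mul_of_nonneg_right hl2 hv'.le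
    linarith
  have h4 : (v : ℤ) ≤ 2 * u * ((v' : ℤ) - v) := by
    by_contra hcon
    have h3' : 2 * u * ((v' : ℤ) - v) < v := not_le.mp hcon
    have h4' : (2 * u * ((v' : ℤ) - v)) * (u * ((v' : ℤ) + v)) < v * (u * ((v' : ℤ) + v)) := by
      apply mul_lt_mul_of_pos_right h3'
      have : (0 : ℤ) < v' + v := by linarith
      positivity
    have h5 : (v : ℤ) * (u * ((v' : ℤ) + v)) ≤ v * (u * (2 * v')) := by
      apply mul_le_mul_of_nonneg_left _ hv'.le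
      apply mul_le_mul_of_nonneg_left _ hu'.le
      linarith
    linarith
  have e1 : ((v' - v : ℕ) : ℤ) = (v' : ℤ) - v := by rw [Nat.cast_sub hvv.le]
  have e2 : (v : ℤ) ≤ ((2 * u * (v' - v) : ℕ) : ℤ) := by
    push_cast [e1]
    linarith
  exact_mod_cast e2

theorem dyadic_count (K B : ℕ) (S : Finset ℕ) (P : ℕ → ℕ → ℕ → Prop)
    (hex : ∀ k ∈ S, ∃ u e, 1 ≤ u ∧ u ≤ K ∧ (e + 1) * u ≤ B ∧ P k u e)
    (hun : ∀ k k' u e, P k u e → P k' u e → k = k') : S.card ≤ (Nat.log 2 K + 1) * B := by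
  classical
  have key := card_le_card_of_forall_subsingleton (s := S)
    (t := range (Nat.log 2 K + 1) ×ˢ range B)
    (fun k (p : ℕ × ℕ) => ∃ u e, P k u e ∧ 2 ^ p.1 ≤ u ∧ u < 2 ^ (p.1 + 1) ∧ p.2 + 2 ^ p.1 = e * 2 ^ p.1 + u) ?_ ?_
  · simpa using key
  · intro k hk
    obtain ⟨u, e, hu, huK, hB, hP⟩ := hex k hk
    have h2j : 2 ^ Nat.log 2 u ≤ u := Nat.pow_log_le_self 2 (by omega)
    have h2j' : u < 2 ^ (Nat.log 2 u + 1) := Nat.lt_pow_succ_log_self (by norm_num) u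
    refine ⟨(Nat.log 2 u, e * 2 ^ Nat.log 2 u + u - 2 ^ Nat.log 2 u), ?_, u, e, hP, h2j, h2j', ?_⟩
    · rw [mem_product, mem_range, mem_range]
      refine ⟨?_, ?_⟩
      · have := Nat.log_mono_right (b := 2) huK
        simp only
        omega
      · simp only
        rw [pow_succ] at h2j'
        have h3 : (e + 1) * 2 ^ Nat.log 2 u ≤ (e + 1) * u := Nat.mul_le_mul_left _ h2j
        generalize 2 ^ Nat.log 2 u = p at *
        have h4 : (e + 1) * p = e * p + p := by ring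
        omega
    · simp only
      omega
  · intro p hp k1 hk1 k2 hk2
    obtain ⟨_, u, e, hP, h1, h2, h3⟩ := hk1
    obtain ⟨_, u', e', hP', h1', h2', h3'⟩ := hk2
    obtain ⟨hee, huu⟩ := enc_inj p.1 e e' u u' p.2 h1 h2 h1' h2' h3 h3'
    subst hee
    subst huu
    exact hun k1 k2 u e hP hP'

theorem gap_count (K R : ℕ) (S : Finset ℕ) (P : ℕ → ℕ → ℕ → Prop)
    (hex : ∀ k ∈ S, ∃ u v, 1 ≤ u ∧ u < R ∧ 1 ≤ v ∧ v ≤ K ∧ P k u v)
    (hgap : ∀ k k' u v v', P k u v → P k' u v' → v < v' → v ≤ 2 * u * (v' - v))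
    (hun : ∀ k k' u v, P k u v → P k' u v → k = k') : S.card ≤ (Nat.log 2 K + 1) * (R * (2 * R)) := by
  classical
  have key := card_le_card_of_forall_subsingleton (s := S)
    (t := range (Nat.log 2 K + 1) ×ˢ (range R ×ˢ range (2 * R)))
    (fun k (p : ℕ × ℕ × ℕ) => ∃ z, P k p.2.1 (2 ^ p.1 + z) ∧
      p.2.2 * 2 ^ p.1 ≤ 2 * p.2.1 * z ∧ 2 * p.2.1 * z < (p.2.2 + 1) * 2 ^ p.1) ?_ ?_
  · simpa using key
  · intro k hk
    obtain ⟨a, t, ha1, hAa, ht1, htK, hP⟩ := hex k hk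
    have h2j : 2 ^ Nat.log 2 t ≤ t := Nat.pow_log_le_self 2 (by omega)
    have h2j' : t < 2 ^ (Nat.log 2 t + 1) := Nat.lt_pow_succ_log_self (by norm_num) t
    have hjK := Nat.log_mono_right (b := 2) htK
    rw [pow_succ] at h2j'
    obtain ⟨u, hu⟩ := Nat.exists_eq_add_of_le h2j
    have hp0 : 0 < 2 ^ Nat.log 2 t := by positivity
    refine ⟨(Nat.log 2 t, (a, 2 * a * u / 2 ^ Nat.log 2 t)), ?_, u, ?_, ?_, ?_⟩
    · rw [mem_product, mem_product, mem_range, mem_range, mem_range]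
      refine ⟨by simp only; omega, by simp only; omega, ?_⟩
      simp only
      have hu2 : u < 2 ^ Nat.log 2 t := by omega
      have h3 : 2 * a * u / 2 ^ Nat.log 2 t < 2 * a := by
        apply Nat.div_lt_of_lt_mul
        rw [mul_comm (2 ^ Nat.log 2 t)]
        exact Nat.mul_lt_mul_of_pos_left hu2 (by omega)
      omega
    · simp only
      rw [← hu]
      exact hP
    · simp only
      exact Nat.div_mul_le_self _ _
    · simp only
      exact (Nat.div_lt_iff_lt_mul hp0).mp (Nat.lt_succ_self _)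
  · have hcode : ∀ k k' a j i u u' : ℕ, P k a (2 ^ j + u) → P k' a (2 ^ j + u') →
        i * 2 ^ j ≤ 2 * a * u → 2 * a * u' < (i + 1) * 2 ^ j → u < u' → False := by
      intro k k' a j i u u' h h' hi hi' huu
      have h1 := hgap k k' a _ _ h h' (by omega)
      have h2 : 2 ^ j + u' - (2 ^ j + u) = u' - u := by omega
      rw [h2] at h1
      have h3 : 2 * a * (u' - u) + 2 * a * u = 2 * a * u' := by
        rw [← Nat.mul_add]
        congr 1
        omega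
      rw [add_mul, one_mul] at hi'
      omega
    intro p hp k1 hk1 k2 hk2
    obtain ⟨_, u, hrep, h1, h2⟩ := hk1
    obtain ⟨_, u', hrep', h1', h2'⟩ := hk2
    rcases lt_trichotomy u u' with h | h | h
    · exact (hcode k1 k2 _ _ _ u u' hrep hrep' h1 h2' h).elim
    · subst h
      exact hun k1 k2 _ _ hrep hrep'
    · exact (hcode k2 k1 _ _ _ u' u hrep' hrep h1' h2 h).elim

end Pool.Agent.Helper590.Duj
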