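import Mathlib
import Pool.Agent.Helper590.Duj.Desc

set_option autoImplicit false

namespace Pool.Agent.Helper590.Duj

open Finset

theorem rep_q (σ : ℤ) (k a t : ℕ) (h : Rep σ k a t) : Q 1 σ a t := by
  obtain ⟨_, _, _, c, hc, hcc, _⟩ := h
  exact ⟨c, hc.le, by rw [hcc]; ring⟩

theorem rep_ok (σ : ℤ) (k a t : ℕ) (h : Rep σ k a t) : Ok 1 σ := by
  rcases h.2.1 with h1 | ⟨h1, _⟩
  · exact Or.inl ⟨rfl, h1⟩
  · exact Or.inr (Or.inr ⟨rfl, h1⟩)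

theorem rep_two (σ : ℤ) (k a t : ℕ) (h : Rep σ k a t) (hσ : σ = -1) : 2 ≤ a := by
  rcases h.2.1 with h1 | ⟨_, h1⟩
  · rw [hσ] at h1; norm_num at h1
  · exact h1

/-- sizes: if `t ≤ a` or `a ≤ t`, the smaller one is less than `R^2`, etc. -/
theorem cube_lt (R x : ℕ) (h : x ^ 3 < R ^ 6) : x < R ^ 2 := by
  have h1 : x ^ 3 < (R ^ 2) ^ 3 := by
    have : (R ^ 2) ^ 3 = R ^ 6 := by ring
    rw [this]; exact h
  exact lt_of_pow_lt_pow_left₀ 3 (by positivity) h1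

section
variable (σ : ℤ) (K R : ℕ)

theorem cnt0 (hKR : K < R ^ 6) (S : Finset ℕ) (hS : ∀ k ∈ S, k ≤ K ∧ ∃ a, Rep σ k a a) :
    S.card ≤ R ^ 2 := by
  classical
  have key := card_le_card_of_forall_subsingleton (s := S) (t := range (R ^ 2))
    (fun k a => Rep σ k a a) ?_ ?_
  · simpa using key
  · intro k hk
    obtain ⟨hkK, a, h⟩ := hS k hk
    refine ⟨a, mem_range.mpr (cube_lt R a ?_), h⟩
    have h1 := rep_le σ k a a K h hkK
    have h2 : a ^ 3 ≤ 2 * a ^ 2 * a := by nlinarith [Nat.zero_le (a ^ 3)]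
    omega
  · intro a _ k1 hk1 k2 hk2
    exact rep_unique σ k1 k2 a a hk1.2 hk2.2

theorem cnt1 (S : Finset ℕ) (hS : ∀ k ∈ S, k ≤ K ∧ ∃ a t, 1 ≤ t ∧ t < a ∧ t < R ∧ Rep σ k a t) :
    S.card ≤ (Nat.log 2 K + 1) * (R * (2 * R)) := by
  refine gap_count K R S (fun k u v => 1 ≤ u ∧ u ≤ v ∧ Rep σ k v u) ?_ ?_ ?_
  · intro k hk
    obtain ⟨hkK, a, t, ht, hta, htR, h⟩ := hS k hk
    have h1 := rep_le σ k a t K h hkK
    have h2 : a ≤ K := by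
      have e1 : a * 1 ≤ a * a := Nat.mul_le_mul_left _ (by omega)
      have e2 : a ^ 2 * 1 ≤ a ^ 2 * t := Nat.mul_le_mul_left _ ht
      nlinarith
    exact ⟨t, a, ht, htR, by omega, h2, ht, hta.le, h⟩
  · rintro k k' u v v' ⟨hu, huv, h⟩ ⟨_, _, h'⟩ hvv
    exact q_gap σ 1 u v v' (ok_swap _ _ (rep_ok σ k v u h)) hu (by norm_num) huv hvv
      (q_swap _ _ _ _ (rep_q σ k v u h)) (q_swap _ _ _ _ (rep_q σ k' v' u h'))
  · rintro k k' u v ⟨_, _, h⟩ ⟨_, _, h'⟩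
    exact rep_unique σ k k' v u h h'

theorem cnt4 (S : Finset ℕ) (hS : ∀ k ∈ S, k ≤ K ∧ ∃ a t, a < t ∧ a < R ∧ Rep σ k a t) :
    S.card ≤ (Nat.log 2 K + 1) * (R * (2 * R)) := by
  refine gap_count K R S (fun k u v => u ≤ v ∧ Rep σ k u v) ?_ ?_ ?_
  · intro k hk
    obtain ⟨hkK, a, t, hat, haR, h⟩ := hS k hk
    have h1 := rep_le σ k a t K h hkK
    have ha1 := h.1
    have h2 : t ≤ K := by
      have e1 : 1 * t ≤ a ^ 2 * t := Nat.mul_le_mul_right _ (by nlinarith)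
      nlinarith
    exact ⟨a, t, ha1, haR, by omega, h2, hat.le, h⟩
  · rintro k k' u v v' ⟨huv, h⟩ ⟨_, h'⟩ hvv
    exact q_gap 1 σ u v v' (rep_ok σ k u v h) h.1 (rep_two σ k u v h) huv hvv
      (rep_q σ k u v h) (rep_q σ k' u v' h')
  · rintro k k' u v ⟨_, h⟩ ⟨_, h'⟩
    exact rep_unique σ k k' u v h h'

theorem cnt2 (hKR : K < R ^ 6) (S : Finset ℕ) (hS : ∀ k ∈ S, k ≤ K ∧ ∃ a t, 1 ≤ t ∧ t < a ∧ Rep σ k a t ∧
      ∃ e, 1 ≤ e ∧ e ≤ t ∧ Step σ 1 t a e) :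
    S.card ≤ (Nat.log 2 K + 1) * (2 * R ^ 2) := by
  refine dyadic_count K (2 * R ^ 2) S
    (fun k e f => ∃ a t, Rep σ k a t ∧ Step σ 1 t a e ∧ Step 1 (-(σ * 1)) e t f) ?_ ?_
  · intro k hk
    obtain ⟨hkK, a, t, ht, hta, h, e, he, het, hst⟩ := hS k hk
    have h1 := rep_le σ k a t K h hkK
    have hok := ok_swap _ _ (rep_ok σ k a t h)
    obtain ⟨f, hf, _⟩ := step_exists 1 (-(σ * 1)) e t (ok_swap _ _ (ok_next _ _ hok)) he het
      (q_swap _ _ _ _ (q_of_step _ _ _ _ _ hst))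
    have ht3 : t ^ 3 ≤ K := by
      have e1 : t ^ 2 ≤ a ^ 2 := Nat.pow_le_pow_left hta.le 2
      have e2 : t ^ 2 * t ≤ a ^ 2 * t := Nat.mul_le_mul_right _ e1
      nlinarith
    have htR : t < R ^ 2 := cube_lt R t (by omega)
    have htK : t ≤ K := by
      have : t ^ 1 ≤ t ^ 3 := Nat.pow_le_pow_right ht (by norm_num)
      rw [pow_one] at this
      omega
    have hfe := hf.1
    have e3 : (f + 1) * e = f * e + e := by ring
    exact ⟨e, f, he, by omega, by omega, a, t, h, hst, hf⟩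
  · rintro k k' e f ⟨a, t, h, h1, h2⟩ ⟨a', t', h', h1', h2'⟩
    have e1 := step_unique _ _ _ _ _ _ h2 h2'
    subst e1
    have e2 := step_unique _ _ _ _ _ _ h1 h1'
    subst e2
    exact rep_unique σ k k' a t h h'

theorem cnt3 (hKR : K < R ^ 6) (S : Finset ℕ) (hS : ∀ k ∈ S, k ≤ K ∧ ∃ a t, 1 ≤ t ∧ t < a ∧ R ≤ t ∧
      Rep σ k a t ∧ ∃ e, t < e ∧ Step σ 1 t a e) :
    S.card ≤ (Nat.log 2 K + 1) * (2 * R ^ 2) := by
  refine dyadic_count K (2 * R ^ 2) S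
    (fun k t f => ∃ a e, Rep σ k a t ∧ Step σ 1 t a e ∧ Step (-(σ * 1)) 1 t e f) ?_ ?_
  · intro k hk
    obtain ⟨hkK, a, t, ht, hta, hRt, h, e, het, hst⟩ := hS k hk
    have h1 := rep_le σ k a t K h hkK
    have hok := ok_swap _ _ (rep_ok σ k a t h)
    obtain ⟨f, hf, _⟩ := step_exists (-(σ * 1)) 1 t e (ok_next _ _ hok) ht het.le
      (q_of_step _ _ _ _ _ hst)
    have hR0 : 0 < R := by
      rcases Nat.eq_zero_or_pos R with h2 | h2
      · rw [h2] at hKR; norm_num at hKR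
      · exact h2
    have heR : e < R ^ 2 := by
      by_contra hcon
      have h2 : R ^ 2 ≤ e := not_lt.mp hcon
      have h3 : e * t ≤ a := hst.1
      have h4 : (e * t) ^ 2 ≤ a ^ 2 := Nat.pow_le_pow_left h3 2
      have h5 : (e * t) ^ 2 * t ≤ a ^ 2 * t := Nat.mul_le_mul_right _ h4
      have h6 : (R ^ 2 * R) ^ 2 ≤ (e * t) ^ 2 := Nat.pow_le_pow_left (Nat.mul_le_mul h2 hRt) 2
      have h7 : (R ^ 2 * R) ^ 2 = R ^ 6 := by ring
      have h8 : (e * t) ^ 2 * 1 ≤ (e * t) ^ 2 * t := Nat.mul_le_mul_left _ ht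
      nlinarith
    have htK : t ≤ K := by
      have e1 : 1 * t ≤ a ^ 2 * t := Nat.mul_le_mul_right _ (Nat.pow_pos (by omega))
      nlinarith
    have hfe := hf.1
    have e3 : (f + 1) * t = f * t + t := by ring
    exact ⟨t, f, ht, htK, by omega, a, e, h, hst, hf⟩
  · rintro k k' t f ⟨a, e, h, h1, h2⟩ ⟨a', e', h', h1', h2'⟩
    have e1 := step_unique _ _ _ _ _ _ h2 h2'
    subst e1
    have e2 := step_unique _ _ _ _ _ _ h1 h1'
    subst e2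
    exact rep_unique σ k k' a t h h'

theorem a_cube (hKR : K < R ^ 6) (k a t : ℕ) (h : Rep σ k a t) (hk : k ≤ K) (hat : a < t) :
    a < R ^ 2 ∧ a ≤ K := by
  have h1 := rep_le σ k a t K h hk
  have ha1 := h.1
  have e1 : a ^ 2 * a ≤ a ^ 2 * t := Nat.mul_le_mul_left _ hat.le
  have h2 : a ^ 3 ≤ K := by nlinarith
  refine ⟨cube_lt R a (by omega), ?_⟩
  have : a ^ 1 ≤ a ^ 3 := Nat.pow_le_pow_right ha1 (by norm_num)
  rw [pow_one] at this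
  omega

theorem cnt5 (hKR : K < R ^ 6) (S : Finset ℕ) (hS : ∀ k ∈ S, k ≤ K ∧ ∃ a t, a < t ∧ Rep σ k a t ∧
      ∃ g, 1 ≤ g ∧ g ≤ a ∧ Step 1 σ a t g) :
    S.card ≤ (Nat.log 2 K + 1) * (2 * R ^ 2) := by
  refine dyadic_count K (2 * R ^ 2) S
    (fun k g f => ∃ a t, Rep σ k a t ∧ Step 1 σ a t g ∧ Step σ (-(1 * σ)) g a f) ?_ ?_
  · intro k hk
    obtain ⟨hkK, a, t, hat, h, g, hg, hga, hst⟩ := hS k hk
    have hok := rep_ok σ k a t h
    obtain ⟨f, hf, _⟩ := step_exists σ (-(1 * σ)) g a (ok_swap _ _ (ok_next _ _ hok)) hg hga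
      (q_swap _ _ _ _ (q_of_step _ _ _ _ _ hst))
    obtain ⟨haR, haK⟩ := a_cube σ K R hKR k a t h hkK hat
    have hfe := hf.1
    have e3 : (f + 1) * g = f * g + g := by ring
    exact ⟨g, f, hg, by omega, by omega, a, t, h, hst, hf⟩
  · rintro k k' g f ⟨a, t, h, h1, h2⟩ ⟨a', t', h', h1', h2'⟩
    have e1 := step_unique _ _ _ _ _ _ h2 h2'
    subst e1
    have e2 := step_unique _ _ _ _ _ _ h1 h1'
    subst e2
    exact rep_unique σ k k' a t h h'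

theorem cnt6 (hKR : K < R ^ 6) (S : Finset ℕ) (hS : ∀ k ∈ S, k ≤ K ∧ ∃ a t, a < t ∧ Rep σ k a t ∧
      ∃ g, Step 1 σ a t g ∧ ∃ f, 1 ≤ f ∧ f ≤ a ∧ Step (-(1 * σ)) σ a g f) :
    S.card ≤ (Nat.log 2 K + 1) * (2 * R ^ 2) := by
  refine dyadic_count K (2 * R ^ 2) S
    (fun k f h' => ∃ a t g, Rep σ k a t ∧ Step 1 σ a t g ∧ Step (-(1 * σ)) σ a g f ∧
      Step σ (-(-(1 * σ) * σ)) f a h') ?_ ?_
  · intro k hk
    obtain ⟨hkK, a, t, hat, h, g, hst, f, hf1, hfa, hst2⟩ := hS k hk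
    have hok := rep_ok σ k a t h
    obtain ⟨f', hf', _⟩ := step_exists σ (-(-(1 * σ) * σ)) f a (ok_swap _ _ (ok_next _ _ (ok_next _ _ hok)))
      hf1 hfa (q_swap _ _ _ _ (q_of_step _ _ _ _ _ hst2))
    obtain ⟨haR, haK⟩ := a_cube σ K R hKR k a t h hkK hat
    have hfe := hf'.1
    have e3 : (f' + 1) * f = f' * f + f := by ring
    exact ⟨f, f', hf1, by omega, by omega, a, t, g, h, hst, hst2, hf'⟩
  · rintro k k' f f' ⟨a, t, g, h, h1, h2, h3⟩ ⟨a', t', g', h', h1', h2', h3'⟩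
    have e0 := step_unique _ _ _ _ _ _ h3 h3'
    subst e0
    have e1 := step_unique _ _ _ _ _ _ h2 h2'
    subst e1
    have e2 := step_unique _ _ _ _ _ _ h1 h1'
    subst e2
    exact rep_unique σ k k' a t h h'

theorem cnt7 (hKR : K < R ^ 6) (S : Finset ℕ) (hS : ∀ k ∈ S, k ≤ K ∧ ∃ a t, a < t ∧ R ≤ a ∧ Rep σ k a t ∧
      ∃ g, Step 1 σ a t g ∧ ∃ f, a < f ∧ Step (-(1 * σ)) σ a g f) :
    S.card ≤ (Nat.log 2 K + 1) * (2 * R ^ 2) := by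
  refine dyadic_count K (2 * R ^ 2) S
    (fun k a h' => ∃ t g f, Rep σ k a t ∧ Step 1 σ a t g ∧ Step (-(1 * σ)) σ a g f ∧
      Step (-(-(1 * σ) * σ)) σ a f h') ?_ ?_
  · intro k hk
    obtain ⟨hkK, a, t, hat, hRa, h, g, hst, f, hfa, hst2⟩ := hS k hk
    have hok := rep_ok σ k a t h
    have ha1 := h.1
    obtain ⟨f', hf', _⟩ := step_exists (-(-(1 * σ) * σ)) σ a f (ok_next _ _ (ok_next _ _ hok))
      ha1 hfa.le (q_of_step _ _ _ _ _ hst2)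
    obtain ⟨haR, haK⟩ := a_cube σ K R hKR k a t h hkK hat
    have hfR : f < R ^ 2 := by
      by_contra hcon
      have h2 : R ^ 2 ≤ f := not_lt.mp hcon
      have h3 : g * a ≤ t := hst.1
      have h4 : f * a ≤ g := hst2.1
      have h5 := rep_le σ k a t K h hkK
      have h6 : f * a * a ≤ t := (Nat.mul_le_mul_right _ h4).trans h3
      have h7 : a ^ 2 * (f * a * a) ≤ a ^ 2 * t := Nat.mul_le_mul_left _ h6
      have h8 : R ^ 4 ≤ a ^ 4 := Nat.pow_le_pow_left hRa 4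
      have h9 : R ^ 2 * R ^ 4 ≤ f * a ^ 4 := Nat.mul_le_mul h2 h8
      have h10 : a ^ 2 * (f * a * a) = f * a ^ 4 := by ring
      have h11 : R ^ 2 * R ^ 4 = R ^ 6 := by ring
      nlinarith
    have hfe := hf'.1
    have e3 : (f' + 1) * a = f' * a + a := by ring
    exact ⟨a, f', ha1, haK, by omega, t, g, f, h, hst, hst2, hf'⟩
  · rintro k k' a f' ⟨t, g, f, h, h1, h2, h3⟩ ⟨t', g', ff, h', h1', h2', h3'⟩
    have e0 := step_unique _ _ _ _ _ _ h3 h3'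
    subst e0
    have e1 := step_unique _ _ _ _ _ _ h2 h2'
    subst e1
    have e2 := step_unique _ _ _ _ _ _ h1 h1'
    subst e2
    exact rep_unique σ k k' a t h h'

/-- all the cases together -/
theorem cnt_all (hKR : K < R ^ 6) (E : Finset ℕ) (hE : ∀ k ∈ E, k ≤ K ∧ ∃ a t, 1 ≤ t ∧ Rep σ k a t) :
    E.card ≤ 15 * (Nat.log 2 K + 1) * R ^ 2 := by
  classical
  let S0 := E.filter (fun k => ∃ a, Rep σ k a a)
  let S1 := E.filter (fun k => ∃ a t, 1 ≤ t ∧ t < a ∧ t < R ∧ Rep σ k a t)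
  let S2 := E.filter (fun k => ∃ a t, 1 ≤ t ∧ t < a ∧ Rep σ k a t ∧ ∃ e, 1 ≤ e ∧ e ≤ t ∧ Step σ 1 t a e)
  let S3 := E.filter (fun k => ∃ a t, 1 ≤ t ∧ t < a ∧ R ≤ t ∧ Rep σ k a t ∧ ∃ e, t < e ∧ Step σ 1 t a e)
  let S4 := E.filter (fun k => ∃ a t, a < t ∧ a < R ∧ Rep σ k a t)
  let S5 := E.filter (fun k => ∃ a t, a < t ∧ Rep σ k a t ∧ ∃ g, 1 ≤ g ∧ g ≤ a ∧ Step 1 σ a t g)
  let S6 := E.filter (fun k => ∃ a t, a < t ∧ Rep σ k a t ∧
      ∃ g, Step 1 σ a t g ∧ ∃ f, 1 ≤ f ∧ f ≤ a ∧ Step (-(1 * σ)) σ a g f)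
  let S7 := E.filter (fun k => ∃ a t, a < t ∧ R ≤ a ∧ Rep σ k a t ∧
      ∃ g, Step 1 σ a t g ∧ ∃ f, a < f ∧ Step (-(1 * σ)) σ a g f)
  have hsub : E ⊆ S0 ∪ (S1 ∪ (S2 ∪ (S3 ∪ (S4 ∪ (S5 ∪ (S6 ∪ S7)))))) := by
    intro k hk
    obtain ⟨hkK, a, t, ht, h⟩ := hE k hk
    have ha1 := h.1
    have hok := rep_ok σ k a t h
    simp only [mem_union]
    rcases lt_trichotomy t a with hta | hta | hta
    · rcases lt_or_ge t R with htR | htR
      · right; left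
        exact mem_filter.mpr ⟨hk, a, t, ht, hta, htR, h⟩
      · obtain ⟨e, he, he1⟩ := step_exists σ 1 t a (ok_swap _ _ hok) ht hta.le
          (q_swap _ _ _ _ (rep_q σ k a t h))
        rcases le_or_gt e t with het | het
        · right; right; left
          exact mem_filter.mpr ⟨hk, a, t, ht, hta, h, e, he1 hta, het, he⟩
        · right; right; right; left
          exact mem_filter.mpr ⟨hk, a, t, ht, hta, htR, h, e, het, he⟩
    · left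
      subst hta
      exact mem_filter.mpr ⟨hk, t, h⟩
    · rcases lt_or_ge a R with haR | haR
      · right; right; right; right; left
        exact mem_filter.mpr ⟨hk, a, t, hta, haR, h⟩
      · obtain ⟨g, hg, hg1⟩ := step_exists 1 σ a t hok ha1 hta.le (rep_q σ k a t h)
        rcases le_or_gt g a with hga | hga
        · right; right; right; right; right; left
          exact mem_filter.mpr ⟨hk, a, t, hta, h, g, hg1 hta, hga, hg⟩
        · obtain ⟨f, hf, hf1⟩ := step_exists (-(1 * σ)) σ a g (ok_next _ _ hok) ha1 hga.le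
            (q_of_step _ _ _ _ _ hg)
          rcases le_or_gt f a with hfa | hfa
          · right; right; right; right; right; right; left
            exact mem_filter.mpr ⟨hk, a, t, hta, h, g, hg, f, hf1 hga, hfa, hf⟩
          · right; right; right; right; right; right; right
            exact mem_filter.mpr ⟨hk, a, t, hta, haR, h, g, hg, f, hfa, hf⟩
  have c0 : S0.card ≤ R ^ 2 := cnt0 σ K R hKR S0 (fun k hk => by
    rw [mem_filter] at hk; exact ⟨(hE k hk.1).1, hk.2⟩)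
  have c1 : S1.card ≤ (Nat.log 2 K + 1) * (R * (2 * R)) := cnt1 σ K R S1 (fun k hk => by
    rw [mem_filter] at hk; exact ⟨(hE k hk.1).1, hk.2⟩)
  have c2 : S2.card ≤ (Nat.log 2 K + 1) * (2 * R ^ 2) := cnt2 σ K R hKR S2 (fun k hk => by
    rw [mem_filter] at hk; exact ⟨(hE k hk.1).1, hk.2⟩)
  have c3 : S3.card ≤ (Nat.log 2 K + 1) * (2 * R ^ 2) := cnt3 σ K R hKR S3 (fun k hk => by
    rw [mem_filter] at hk; exact ⟨(hE k hk.1).1, hk.2⟩)
  have c4 : S4.card ≤ (Nat.log 2 K + 1) * (R * (2 * R)) := cnt4 σ K R S4 (fun k hk => by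
    rw [mem_filter] at hk; exact ⟨(hE k hk.1).1, hk.2⟩)
  have c5 : S5.card ≤ (Nat.log 2 K + 1) * (2 * R ^ 2) := cnt5 σ K R hKR S5 (fun k hk => by
    rw [mem_filter] at hk; exact ⟨(hE k hk.1).1, hk.2⟩)
  have c6 : S6.card ≤ (Nat.log 2 K + 1) * (2 * R ^ 2) := cnt6 σ K R hKR S6 (fun k hk => by
    rw [mem_filter] at hk; exact ⟨(hE k hk.1).1, hk.2⟩)
  have c7 : S7.card ≤ (Nat.log 2 K + 1) * (2 * R ^ 2) := cnt7 σ K R hKR S7 (fun k hk => by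
    rw [mem_filter] at hk; exact ⟨(hE k hk.1).1, hk.2⟩)
  have hcard := card_le_card hsub
  have u0 := card_union_le S0 (S1 ∪ (S2 ∪ (S3 ∪ (S4 ∪ (S5 ∪ (S6 ∪ S7))))))
  have u1 := card_union_le S1 (S2 ∪ (S3 ∪ (S4 ∪ (S5 ∪ (S6 ∪ S7)))))
  have u2 := card_union_le S2 (S3 ∪ (S4 ∪ (S5 ∪ (S6 ∪ S7))))
  have u3 := card_union_le S3 (S4 ∪ (S5 ∪ (S6 ∪ S7)))
  have u4 := card_union_le S4 (S5 ∪ (S6 ∪ S7))
  have u5 := card_union_le S5 (S6 ∪ S7)
  have u6 := card_union_le S6 S7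
  have hR2 : R * (2 * R) = 2 * R ^ 2 := by ring
  rw [hR2] at c1 c4
  have hfin : R ^ 2 + 7 * ((Nat.log 2 K + 1) * (2 * R ^ 2)) ≤ 15 * (Nat.log 2 K + 1) * R ^ 2 := by
    have e1 : 1 * R ^ 2 ≤ (Nat.log 2 K + 1) * R ^ 2 := Nat.mul_le_mul_right _ (by omega)
    nlinarith
  omega

end

/-- reduction of an extra solution outside the family `k = 2 y^2` -/
theorem rep_nonfam (k : ℕ) (x y : ℤ) (hx : 0 < x) (hy : 0 < y) (hyk : y < (k : ℤ) - 1)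
    (h : x ^ 2 - ((k : ℤ) ^ 2 + 1) * y ^ 2 = (k : ℤ) ^ 2)
    (hfam : ¬ ((k : ℤ) = 2 * y ^ 2 ∧ x = 2 * y ^ 3 + y)) :
    ∃ a t : ℕ, 1 ≤ t ∧ (Rep 1 k a t ∨ Rep (-1) k a t) := by
  obtain ⟨a, t, hrep, ht0⟩ := rep_exists k x y hx hy hyk h
  rcases Nat.eq_zero_or_pos t with ht | ht
  · exact (hfam (ht0 ht)).elim
  · exact ⟨a, t, ht, hrep⟩

/-- the number of `k ≤ K` with an extra solution outside the family -/
theorem cnt_nonfam (K R : ℕ) (hKR : K < R ^ 6) (E : Finset ℕ)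
    (hE : ∀ k ∈ E, k ≤ K ∧ ∃ a t : ℕ, 1 ≤ t ∧ (Rep 1 k a t ∨ Rep (-1) k a t)) :
    E.card ≤ 30 * (Nat.log 2 K + 1) * R ^ 2 := by
  classical
  have hsub : E ⊆ E.filter (fun k => ∃ a t : ℕ, 1 ≤ t ∧ Rep 1 k a t) ∪
      E.filter (fun k => ∃ a t : ℕ, 1 ≤ t ∧ Rep (-1) k a t) := by
    intro k hk
    obtain ⟨_, a, t, ht, h | h⟩ := hE k hk
    · exact mem_union_left _ (mem_filter.mpr ⟨hk, a, t, ht, h⟩)
    · exact mem_union_right _ (mem_filter.mpr ⟨hk, a, t, ht, h⟩)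
  have h1 := cnt_all 1 K R hKR (E.filter (fun k => ∃ a t : ℕ, 1 ≤ t ∧ Rep 1 k a t)) (fun k hk => by
    rw [mem_filter] at hk; exact ⟨(hE k hk.1).1, hk.2⟩)
  have h2 := cnt_all (-1) K R hKR (E.filter (fun k => ∃ a t : ℕ, 1 ≤ t ∧ Rep (-1) k a t)) (fun k hk => by
    rw [mem_filter] at hk; exact ⟨(hE k hk.1).1, hk.2⟩)
  have h3 := card_le_card hsub
  have h4 := card_union_le (E.filter (fun k => ∃ a t : ℕ, 1 ≤ t ∧ Rep 1 k a t))
      (E.filter (fun k => ∃ a t : ℕ, 1 ≤ t ∧ Rep (-1) k a t))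
  have h5 : 15 * (Nat.log 2 K + 1) * R ^ 2 + 15 * (Nat.log 2 K + 1) * R ^ 2 =
      30 * (Nat.log 2 K + 1) * R ^ 2 := by ring
  omega

end Pool.Agent.Helper590.Duj
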