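import Mathlib
import Pool.Agent.Helper590.Duj.Classes
import Pool.Agent.Helper590.Duj.Desc2

set_option autoImplicit false

namespace Pool.Agent.Helper590.Duj.Cls

/-- an extra solution -/
def Ex (k : ℕ) (x y : ℤ) : Prop :=
  0 < x ∧ 0 < y ∧ y < (k : ℤ) - 1 ∧ x ^ 2 - ((k : ℤ) ^ 2 + 1) * y ^ 2 = (k : ℤ) ^ 2

theorem big_pos (k : ℕ) (hk : 2 ≤ k) : (0 : ℤ) < (k : ℤ) ^ 2 - k + 1 := by
  have : (2 : ℤ) ≤ k := by exact_mod_cast hk
  nlinarith

theorem trich (k : ℕ) (hk : 2 ≤ k) (s : ℤ × ℤ) (hs : IsSol k s) (h0 : 0 ≤ s.2) (h1 : s.2 < k) :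
    (s = ((k : ℤ), (0 : ℤ)) ∨ (-s.1, -s.2) = ((k : ℤ), (0 : ℤ))) ∨
    (s = ((k : ℤ) ^ 2 - k + 1, (k : ℤ) - 1) ∨ s = (-((k : ℤ) ^ 2 - k + 1), (k : ℤ) - 1)) ∨
    (Ex k s.1 s.2 ∨ Ex k (-s.1) s.2) := by
  have hk2 : (2 : ℤ) ≤ k := by exact_mod_cast hk
  have hs' : s.1 ^ 2 - ((k : ℤ) ^ 2 + 1) * s.2 ^ 2 = (k : ℤ) ^ 2 := hs
  rcases lt_or_eq_of_le h0 with h2 | h2
  · rcases lt_trichotomy s.2 ((k : ℤ) - 1) with h3 | h3 | h3
    · right; right
      rcases lt_trichotomy s.1 0 with h4 | h4 | h4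
      · right
        exact ⟨by linarith, h2, h3, by rw [neg_sq]; exact hs'⟩
      · exfalso
        rw [h4] at hs'
        have : 0 < ((k : ℤ) ^ 2 + 1) * s.2 ^ 2 := by positivity
        have : 0 < (k : ℤ) ^ 2 := by positivity
        linarith
      · left
        exact ⟨h4, h2, h3, hs'⟩
    · right; left
      rw [h3] at hs'
      have e1 : (s.1 - ((k : ℤ) ^ 2 - k + 1)) * (s.1 + ((k : ℤ) ^ 2 - k + 1)) = 0 := by
        linear_combination hs'
      rcases mul_eq_zero.mp e1 with e2 | e2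
      · left
        exact Prod.ext (by simp only; linarith) (by simp only; linarith)
      · right
        exact Prod.ext (by simp only; linarith) (by simp only; linarith)
    · exfalso
      omega
  · left
    rw [← h2] at hs'
    have e1 : (s.1 - k) * (s.1 + k) = 0 := by linear_combination hs'
    rcases mul_eq_zero.mp e1 with e2 | e2
    · left
      exact Prod.ext (by simp only; linarith) (by simp only; linarith)
    · right
      exact Prod.ext (by show -s.1 = (k : ℤ); linarith) (by show -s.2 = 0; linarith)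

theorem classes_three (k : ℕ) (hk : 2 ≤ k) (h : ∀ x y : ℤ, ¬ Ex k x y) : (classes k).ncard = 3 := by
  have hk2 : (2 : ℤ) ≤ k := by exact_mod_cast hk
  have hb := big_pos k hk
  rw [count_classes k (by omega)
    ({((k : ℤ), (0 : ℤ)), ((k : ℤ) ^ 2 - k + 1, (k : ℤ) - 1), (-((k : ℤ) ^ 2 - k + 1), (k : ℤ) - 1)} :
      Finset (ℤ × ℤ)) ?_ ?_ ?_]
  · apply Finset.card_eq_three.mpr
    refine ⟨_, _, _, ?_, ?_, ?_, rfl⟩
    · intro e
      have := congrArg Prod.snd e
      simp only at this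
      linarith
    · intro e
      have := congrArg Prod.snd e
      simp only at this
      linarith
    · intro e
      have := congrArg Prod.fst e
      simp only at this
      linarith
  · intro s hs
    simp only [Finset.mem_insert, Finset.mem_singleton] at hs
    rcases hs with e | e | e <;> rw [e] <;> unfold IsSol <;> simp only
    · exact ⟨by ring, le_rfl, by linarith⟩
    · exact ⟨by ring, by linarith, by linarith⟩
    · exact ⟨by ring, by linarith, by linarith⟩
  · intro s hs h0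
    simp only [Finset.mem_insert, Finset.mem_singleton] at hs
    rcases hs with e | e | e
    · rw [e]; simp only; linarith
    · exfalso; rw [e] at h0; simp only at h0; linarith
    · exfalso; rw [e] at h0; simp only at h0; linarith
  · intro s hs h0 h1
    simp only [Finset.mem_insert, Finset.mem_singleton]
    rcases trich k hk s hs h0 h1 with (e | e) | (e | e) | (e | e)
    · exact Or.inl (Or.inl e)
    · exact Or.inr (Or.inl e)
    · exact Or.inl (Or.inr (Or.inl e))
    · exact Or.inl (Or.inr (Or.inr e))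
    · exact (h _ _ e).elim
    · exact (h _ _ e).elim

theorem classes_five (k : ℕ) (hk : 2 ≤ k) (x0 y0 : ℤ) (h0 : Ex k x0 y0)
    (h : ∀ x y : ℤ, Ex k x y → x = x0 ∧ y = y0) : (classes k).ncard = 5 := by
  have hk2 : (2 : ℤ) ≤ k := by exact_mod_cast hk
  have hb := big_pos k hk
  obtain ⟨hx0, hy0, hyk0, he0⟩ := h0
  rw [count_classes k (by omega)
    (insert (x0, y0) (insert (-x0, y0)
      {((k : ℤ), (0 : ℤ)), ((k : ℤ) ^ 2 - k + 1, (k : ℤ) - 1), (-((k : ℤ) ^ 2 - k + 1), (k : ℤ) - 1)}) :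
      Finset (ℤ × ℤ)) ?_ ?_ ?_]
  · rw [Finset.card_insert_of_notMem, Finset.card_insert_of_notMem, Finset.card_eq_three.mpr]
    · refine ⟨_, _, _, ?_, ?_, ?_, rfl⟩
      · intro e
        have := congrArg Prod.snd e
        simp only at this
        linarith
      · intro e
        have := congrArg Prod.snd e
        simp only at this
        linarith
      · intro e
        have := congrArg Prod.fst e
        simp only at this
        linarith
    · intro hmem
      simp only [Finset.mem_insert, Finset.mem_singleton, Prod.mk.injEq] at hmem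
      rcases hmem with ⟨_, e⟩ | ⟨_, e⟩ | ⟨_, e⟩ <;> linarith
    · intro hmem
      simp only [Finset.mem_insert, Finset.mem_singleton, Prod.mk.injEq] at hmem
      rcases hmem with ⟨e, _⟩ | ⟨_, e⟩ | ⟨_, e⟩ | ⟨_, e⟩ <;> linarith
  · intro s hs
    simp only [Finset.mem_insert, Finset.mem_singleton] at hs
    rcases hs with e | e | e | e | e <;> rw [e] <;> unfold IsSol <;> simp only
    · exact ⟨he0, by linarith, by linarith⟩
    · exact ⟨by rw [neg_sq]; exact he0, by linarith, by linarith⟩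
    · exact ⟨by ring, le_rfl, by linarith⟩
    · exact ⟨by ring, by linarith, by linarith⟩
    · exact ⟨by ring, by linarith, by linarith⟩
  · intro s hs h0'
    simp only [Finset.mem_insert, Finset.mem_singleton] at hs
    rcases hs with e | e | e | e | e
    · exfalso; rw [e] at h0'; simp only at h0'; linarith
    · exfalso; rw [e] at h0'; simp only at h0'; linarith
    · rw [e]; simp only; linarith
    · exfalso; rw [e] at h0'; simp only at h0'; linarith
    · exfalso; rw [e] at h0'; simp only at h0'; linarith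
  · intro s hs h0' h1
    simp only [Finset.mem_insert, Finset.mem_singleton]
    rcases trich k hk s hs h0' h1 with (e | e) | (e | e) | (e | e)
    · exact Or.inl (Or.inr (Or.inr (Or.inl e)))
    · exact Or.inr (Or.inr (Or.inr (Or.inl e)))
    · exact Or.inl (Or.inr (Or.inr (Or.inr (Or.inl e))))
    · exact Or.inl (Or.inr (Or.inr (Or.inr (Or.inr e))))
    · obtain ⟨e1, e2⟩ := h _ _ e
      exact Or.inl (Or.inl (Prod.ext e1 e2))
    · obtain ⟨e1, e2⟩ := h _ _ e
      refine Or.inl (Or.inr (Or.inl (Prod.ext ?_ e2)))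
      simp only
      linarith

/-- exactly five classes if `k = 2 t^2` with `t ≥ 2`, exactly three otherwise -/
def Good (k : ℕ) : Prop :=
  ((∃ t : ℕ, 2 ≤ t ∧ k = 2 * t ^ 2) → (classes k).ncard = 5) ∧
    ((¬ ∃ t : ℕ, 2 ≤ t ∧ k = 2 * t ^ 2) → (classes k).ncard = 3)

theorem good_of (k : ℕ) (hk : 2 ≤ k)
    (h : ∀ x y : ℤ, Ex k x y → (k : ℤ) = 2 * y ^ 2 ∧ x = 2 * y ^ 3 + y) : Good k := by
  constructor
  · rintro ⟨t, ht, hkt⟩
    have ht2 : (2 : ℤ) ≤ t := by exact_mod_cast ht
    have hkt' : (k : ℤ) = 2 * (t : ℤ) ^ 2 := by exact_mod_cast hkt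
    apply classes_five k hk (2 * (t : ℤ) ^ 3 + t) t
    · refine ⟨by positivity, by linarith, ?_, ?_⟩
      · rw [hkt']; nlinarith
      · rw [hkt']; ring
    · intro x y hxy
      obtain ⟨e1, e2⟩ := h x y hxy
      have hyt : y = t := by
        have e3 : y ^ 2 = (t : ℤ) ^ 2 := by linarith
        exact (pow_left_inj₀ hxy.2.1.le (by linarith) two_ne_zero).mp e3
      exact ⟨by rw [e2, hyt], hyt⟩
  · intro hn
    apply classes_three k hk
    intro x y hxy
    obtain ⟨e1, e2⟩ := h x y hxy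
    have hy0 := hxy.2.1
    have hyk := hxy.2.2.1
    apply hn
    refine ⟨y.toNat, ?_, ?_⟩
    · have : y ≠ 1 := by
        intro h1
        rw [h1] at e1 hyk
        norm_num at e1 hyk
        linarith
      omega
    · have : ((y.toNat : ℕ) : ℤ) = y := Int.toNat_of_nonneg hy0.le
      have e3 : (k : ℤ) = ((2 * y.toNat ^ 2 : ℕ) : ℤ) := by
        push_cast
        rw [this]
        exact e1
      exact_mod_cast e3

theorem almost_all (K R : ℕ) (hKR : K < R ^ 6) :
    {k : ℕ | 2 ≤ k ∧ k ≤ K ∧ ¬ Good k}.ncard ≤ 30 * (Nat.log 2 K + 1) * R ^ 2 := by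
  have hfin : {k : ℕ | 2 ≤ k ∧ k ≤ K ∧ ¬ Good k}.Finite :=
    (Set.finite_Iic K).subset (fun k hk => hk.2.1)
  rw [Set.ncard_eq_toFinset_card _ hfin]
  apply Pool.Agent.Helper590.Duj.cnt_nonfam K R hKR
  intro k hk
  rw [Set.Finite.mem_toFinset] at hk
  obtain ⟨h1, h2, h3⟩ := hk
  have hex : ∃ x y : ℤ, Ex k x y ∧ ¬ ((k : ℤ) = 2 * y ^ 2 ∧ x = 2 * y ^ 3 + y) := by
    by_contra hcon
    push Not at hcon
    exact h3 (good_of k h1 (fun x y hxy => hcon x y hxy))
  obtain ⟨x, y, ⟨hx, hy, hyk, he⟩, h4⟩ := hex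
  exact ⟨h2, Pool.Agent.Helper590.Duj.rep_nonfam k x y hx hy hyk he h4⟩

end Pool.Agent.Helper590.Duj.Cls
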