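import Mathlib

set_option autoImplicit false

namespace Pool.Agent.Helper590.Duj

theorem n_lt_k (k n : ℤ) (hk : 0 < k) (hn : 0 < n) (h : n ^ 4 < k ^ 3) : n < k := by
  by_contra hcon
  have h1 : k ≤ n := not_lt.mp hcon
  have h2 : k ^ 3 ≤ n ^ 3 := pow_le_pow_left₀ hk.le h1 3
  have h3 : n ^ 3 * 1 ≤ n ^ 3 * n := by
    apply mul_le_mul_of_nonneg_left _ (by positivity)
    linarith
  nlinarith

theorem stepA (k p m x y : ℤ) (hp : Prime p) (hp2 : ¬ p ∣ 2) (hk : k = p * m) (hp0 : 0 < p) (hm : 0 < m)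
    (hn : (m ^ 2) ^ 4 < k ^ 3) (hx : 0 < x) (hy : 0 < y) (hyk : y ≤ k - 2)
    (h : x ^ 2 = (k ^ 2 + 1) * y ^ 2 + k ^ 2) :
    ∃ z ε : ℤ, (ε = 1 ∨ ε = -1) ∧ 0 < z ∧ z < m ^ 2 ∧ x = ε * y + p ^ 2 * z ∧ 0 < m ^ 2 * y - ε * z ∧
      (m ^ 2 * y - ε * z) ^ 2 = z ^ 2 * (k ^ 2 + 1) - (m ^ 2) ^ 2 := by
  have hk0 : 0 < k := by rw [hk]; positivity
  have hmk : m ^ 2 < k := n_lt_k k (m ^ 2) hk0 (by positivity) hn
  have hxy : y < x := by
    by_contra hcon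
    have h1 : x ≤ y := not_lt.mp hcon
    have h2 : x ^ 2 ≤ y ^ 2 := pow_le_pow_left₀ hx.le h1 2
    have h3 : 0 < k ^ 2 * y ^ 2 := by positivity
    nlinarith
  have hpy : ¬ p ∣ y := by
    intro hd
    have hpx : p ∣ x := by
      have h1 : p ∣ x ^ 2 := by
        rw [h]
        apply dvd_add
        · exact (dvd_pow hd two_ne_zero).mul_left _
        · rw [hk]
          exact dvd_pow (dvd_mul_right p m) two_ne_zero
      exact hp.dvd_of_dvd_pow h1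
    obtain ⟨x', hx'⟩ := hpx
    obtain ⟨y', hy'⟩ := hd
    have hy'0 : 0 < y' := by
      rw [hy'] at hy
      exact (mul_pos_iff_of_pos_left hp0).mp hy
    have hx'0 : 0 < x' := by
      rw [hx'] at hx
      exact (mul_pos_iff_of_pos_left hp0).mp hx
    have h1 : x' ^ 2 = (k ^ 2 + 1) * y' ^ 2 + m ^ 2 := by
      have h2 : p ^ 2 * x' ^ 2 = p ^ 2 * ((k ^ 2 + 1) * y' ^ 2 + m ^ 2) := by
        have h3 := h
        rw [hx', hy'] at h3
        have h4 : k ^ 2 = p ^ 2 * m ^ 2 := by rw [hk]; ring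
        linear_combination h3 + h4
      exact mul_left_cancel₀ (by positivity) h2
    have h2 : y' < m := by
      have h3 : p * y' < p * m := by rw [← hy', ← hk]; linarith
      exact lt_of_mul_lt_mul_left h3 hp0.le
    have h3 : k * y' < x' := by
      by_contra hcon
      have h4 : x' ≤ k * y' := not_lt.mp hcon
      have h5 : x' ^ 2 ≤ (k * y') ^ 2 := pow_le_pow_left₀ hx'0.le h4 2
      have h6 : 0 < y' ^ 2 := by positivity
      have h7 : 0 < m ^ 2 := by positivity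
      nlinarith
    have h4 : k * y' + 1 ≤ x' := h3
    have h5 : (k * y' + 1) ^ 2 ≤ x' ^ 2 := pow_le_pow_left₀ (by positivity) h4 2
    have h6 : y' ^ 2 < m ^ 2 := pow_lt_pow_left₀ h2 hy'0.le two_ne_zero
    nlinarith
  have hfac : (x - y) * (x + y) = p ^ 2 * (m ^ 2 * (y ^ 2 + 1)) := by
    have h4 : k ^ 2 = p ^ 2 * m ^ 2 := by rw [hk]; ring
    linear_combination h + (y ^ 2 + 1) * h4
  have hdv : p ^ 2 ∣ x - y ∨ p ^ 2 ∣ x + y := by
    by_cases h1 : p ∣ x - y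
    · left
      have h2 : ¬ p ∣ x + y := by
        intro h3
        have h4 : p ∣ 2 * y := by
          have h5 := dvd_sub h3 h1
          have e : x + y - (x - y) = 2 * y := by ring
          rwa [e] at h5
        rcases hp.dvd_or_dvd h4 with h5 | h5
        · exact hp2 h5
        · exact hpy h5
      have h3 : IsCoprime (p ^ 2) (x + y) := (hp.coprime_iff_not_dvd.mpr h2).pow_left
      exact h3.dvd_of_dvd_mul_right ⟨_, hfac⟩
    · right
      have h3 : IsCoprime (p ^ 2) (x - y) := (hp.coprime_iff_not_dvd.mpr h1).pow_left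
      exact h3.dvd_of_dvd_mul_left ⟨_, hfac⟩
  obtain ⟨ε, hε, z, hz⟩ : ∃ ε : ℤ, (ε = 1 ∨ ε = -1) ∧ ∃ z, x - ε * y = p ^ 2 * z := by
    rcases hdv with ⟨z, hz⟩ | ⟨z, hz⟩
    · exact ⟨1, Or.inl rfl, z, by rw [one_mul]; exact hz⟩
    · exact ⟨-1, Or.inr rfl, z, by rw [← hz]; ring⟩
  have hε2 : ε ^ 2 = 1 := by rcases hε with h1 | h1 <;> rw [h1] <;> norm_num
  have hz0 : 0 < z := by
    have h1 : 0 < p ^ 2 * z := by
      rw [← hz]
      rcases hε with h1 | h1 <;> rw [h1] <;> linarith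
    exact (mul_pos_iff_of_pos_left (by positivity)).mp h1
  have hxk : x + y < k ^ 2 := by
    by_contra hcon
    have h1 : k ^ 2 - y ≤ x := by linarith [not_lt.mp hcon]
    have h2 : k ^ 2 - k + 2 ≤ x := by linarith
    have h3 : 0 < k ^ 2 - k + 2 := by nlinarith
    have h4 : (k ^ 2 - k + 2) ^ 2 ≤ x ^ 2 := pow_le_pow_left₀ h3.le h2 2
    have h5 : y ^ 2 ≤ (k - 2) ^ 2 := pow_le_pow_left₀ hy.le hyk 2
    have h6 : (k ^ 2 + 1) * y ^ 2 ≤ (k ^ 2 + 1) * (k - 2) ^ 2 := by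
      apply mul_le_mul_of_nonneg_left h5 (by positivity)
    have h7 : 3 ≤ k := by linarith
    have h8 : (k ^ 2 - k + 2) ^ 2 ≤ (k ^ 2 + 1) * (k - 2) ^ 2 + k ^ 2 := by linarith
    have h9 : (k ^ 2 - k + 2) ^ 2 - ((k ^ 2 + 1) * (k - 2) ^ 2 + k ^ 2) = 2 * k ^ 3 - k ^ 2 := by ring
    have h10 : 0 < 2 * k ^ 3 - k ^ 2 := by
      have : 2 * k ^ 3 - k ^ 2 = k ^ 2 * (2 * k - 1) := by ring
      rw [this]
      have : 0 < 2 * k - 1 := by linarith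
      positivity
    linarith
  have hk2 : k ^ 2 = p ^ 2 * m ^ 2 := by rw [hk]; ring
  have hzm : z < m ^ 2 := by
    have h1 : p ^ 2 * z < p ^ 2 * m ^ 2 := by
      rw [← hk2, ← hz]
      rcases hε with h1 | h1 <;> rw [h1] <;> linarith
    exact lt_of_mul_lt_mul_left h1 (by positivity)
  have hxe : x = ε * y + p ^ 2 * z := by linarith
  have hmain : z * (2 * ε * y + p ^ 2 * z) = m ^ 2 * (y ^ 2 + 1) := by
    have h1 : p ^ 2 * (z * (2 * ε * y + p ^ 2 * z)) = p ^ 2 * (m ^ 2 * (y ^ 2 + 1)) := by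
      rw [← hfac, hxe]
      linear_combination (-y ^ 2) * hε2
    exact mul_left_cancel₀ (by positivity) h1
  refine ⟨z, ε, hε, hz0, hzm, hxe, ?_, ?_⟩
  · have h1 : m ^ 2 * 1 ≤ m ^ 2 * y := by
      apply mul_le_mul_of_nonneg_left _ (by positivity)
      linarith
    rcases hε with h2 | h2 <;> rw [h2] <;> nlinarith
  · linear_combination (z ^ 2) * hε2 - m ^ 2 * hmain - z ^ 2 * hk2

/-- the auxiliary norm equation has at most one relevant solution -/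
theorem uniqZA (k n z1 z2 A1 A2 : ℤ) (hk : 0 < k) (_hn : 0 < n) (hnk : n ^ 4 < k ^ 3)
    (hz1 : 0 < z1) (hz2 : 0 < z2) (hA1 : 0 < A1) (hA2 : 0 < A2) (hA1n : A1 < n) (hA2n : A2 < n)
    (h1 : 2 * k * A1 * z1 = n ^ 2 + A1 ^ 2 - z1 ^ 2) (h2 : 2 * k * A2 * z2 = n ^ 2 + A2 ^ 2 - z2 ^ 2) :
    z1 = z2 ∧ A1 = A2 := by
  have hP : ∀ A z : ℤ, 0 < A → 0 < z → A < n → 2 * k * A * z = n ^ 2 + A ^ 2 - z ^ 2 →
      k * (A * z) < n ^ 2 ∧ A ≤ A * z ∧ z ≤ A * z := by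
    intro A z hA hz hAn h
    have e1 : A ^ 2 < n ^ 2 := pow_lt_pow_left₀ hAn hA.le two_ne_zero
    refine ⟨by nlinarith, by nlinarith, by nlinarith⟩
  obtain ⟨a1, a2, a3⟩ := hP A1 z1 hA1 hz1 hA1n h1
  obtain ⟨b1, b2, b3⟩ := hP A2 z2 hA2 hz2 hA2n h2
  have hPP : A1 * z1 = A2 * z2 := by
    by_contra hne
    -- squares are at most (n^2/k)^2
    have c1 : (k * A1) ^ 2 < (n ^ 2) ^ 2 := by
      apply pow_lt_pow_left₀ _ (by positivity) two_ne_zero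
      nlinarith
    have c2 : (k * z1) ^ 2 < (n ^ 2) ^ 2 := by
      apply pow_lt_pow_left₀ _ (by positivity) two_ne_zero
      nlinarith
    have c3 : (k * A2) ^ 2 < (n ^ 2) ^ 2 := by
      apply pow_lt_pow_left₀ _ (by positivity) two_ne_zero
      nlinarith
    have c4 : (k * z2) ^ 2 < (n ^ 2) ^ 2 := by
      apply pow_lt_pow_left₀ _ (by positivity) two_ne_zero
      nlinarith
    have hd : 2 * k * (A1 * z1 - A2 * z2) = A1 ^ 2 - z1 ^ 2 - A2 ^ 2 + z2 ^ 2 := by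
      linear_combination h1 - h2
    have hk2 : 0 < k ^ 2 := by positivity
    rcases lt_or_gt_of_ne hne with h | h
    · have h3 : A1 * z1 - A2 * z2 ≤ -1 := by linarith [Int.add_one_le_iff.mpr h]
      have h4 : 2 * k * (A1 * z1 - A2 * z2) ≤ 2 * k * (-1) := mul_le_mul_of_nonneg_left h3 (by linarith)
      have h5 : 2 * k ≤ z1 ^ 2 + A2 ^ 2 := by nlinarith [sq_nonneg A1, sq_nonneg z2]
      have h6 : k ^ 2 * (2 * k) ≤ k ^ 2 * (z1 ^ 2 + A2 ^ 2) := mul_le_mul_of_nonneg_left h5 hk2.le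
      nlinarith
    · have h3 : 1 ≤ A1 * z1 - A2 * z2 := by linarith [Int.add_one_le_iff.mpr h]
      have h4 : 2 * k * 1 ≤ 2 * k * (A1 * z1 - A2 * z2) := mul_le_mul_of_nonneg_left h3 (by linarith)
      have h5 : 2 * k ≤ A1 ^ 2 + z2 ^ 2 := by nlinarith [sq_nonneg A2, sq_nonneg z1]
      have h6 : k ^ 2 * (2 * k) ≤ k ^ 2 * (A1 ^ 2 + z2 ^ 2) := mul_le_mul_of_nonneg_left h5 hk2.le
      nlinarith
  have hdd : A1 ^ 2 - z1 ^ 2 = A2 ^ 2 - z2 ^ 2 := by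
    have : 2 * k * (A1 * z1) = 2 * k * (A2 * z2) := by rw [hPP]
    linarith
  have hss : (A1 ^ 2 + z1 ^ 2) ^ 2 = (A2 ^ 2 + z2 ^ 2) ^ 2 := by
    have e1 : (A1 ^ 2 + z1 ^ 2) ^ 2 = (A1 ^ 2 - z1 ^ 2) ^ 2 + 4 * (A1 * z1) ^ 2 := by ring
    have e2 : (A2 ^ 2 + z2 ^ 2) ^ 2 = (A2 ^ 2 - z2 ^ 2) ^ 2 + 4 * (A2 * z2) ^ 2 := by ring
    rw [e1, e2, hdd, hPP]
  have hs : A1 ^ 2 + z1 ^ 2 = A2 ^ 2 + z2 ^ 2 :=
    (pow_left_inj₀ (by positivity) (by positivity) two_ne_zero).mp hss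
  have e1 : A1 ^ 2 = A2 ^ 2 := by linarith
  have e2 : z1 ^ 2 = z2 ^ 2 := by linarith
  exact ⟨(pow_left_inj₀ hz1.le hz2.le two_ne_zero).mp e2, (pow_left_inj₀ hA1.le hA2.le two_ne_zero).mp e1⟩

theorem half_case (k n z A d : ℤ) (hn : 0 < n) (hz : 0 < z) (hzn : z < n) (hA : 0 < A) (hAn : A < n)
    (hnk : n < k) (hd : n * d = 2 * z) (h : 2 * k * A * z = n ^ 2 + A ^ 2 - z ^ 2) : False := by
  have e1 : 0 < d := by
    have : 0 < n * d := by rw [hd]; linarith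
    exact (mul_pos_iff_of_pos_left hn).mp this
  have e2 : d < 2 := by
    have : n * d < n * 2 := by rw [hd]; linarith
    exact lt_of_mul_lt_mul_left this hn.le
  have e3 : d = 1 := by linarith [Int.add_one_le_iff.mpr e1, Int.lt_add_one_iff.mp (show d < 1 + 1 by linarith)]
  rw [e3, mul_one] at hd
  subst hd
  have e4 : 2 * (k * (A * z)) = 3 * z ^ 2 + A ^ 2 := by linarith
  have e5 : (2 * z + 1) * (A * z) ≤ k * (A * z) := mul_le_mul_of_nonneg_right hnk (by positivity)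
  have e6 : A * A < A * (2 * z) := mul_lt_mul_of_pos_left hAn hA
  have e7 : z * z * 1 ≤ z * z * A := mul_le_mul_of_nonneg_left hA (by positivity)
  nlinarith

theorem sideA (k p m x1 y1 x2 y2 : ℤ) (hp : Prime p) (hp2 : ¬ p ∣ 2) (hk : k = p * m) (hp0 : 0 < p)
    (hm : 0 < m) (hn : (m ^ 2) ^ 4 < k ^ 3)
    (hx1 : 0 < x1) (hy1 : 0 < y1) (hyk1 : y1 ≤ k - 2) (h1 : x1 ^ 2 = (k ^ 2 + 1) * y1 ^ 2 + k ^ 2)
    (hx2 : 0 < x2) (hy2 : 0 < y2) (hyk2 : y2 ≤ k - 2) (h2 : x2 ^ 2 = (k ^ 2 + 1) * y2 ^ 2 + k ^ 2) :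
    x1 = x2 ∧ y1 = y2 := by
  have hk0 : 0 < k := by rw [hk]; positivity
  have hn0 : 0 < m ^ 2 := by positivity
  have hmk : m ^ 2 < k := n_lt_k k (m ^ 2) hk0 hn0 hn
  obtain ⟨z1, ε1, hε1, hz1, hzn1, hxe1, hW1, hq1⟩ := stepA k p m x1 y1 hp hp2 hk hp0 hm hn hx1 hy1 hyk1 h1
  obtain ⟨z2, ε2, hε2, hz2, hzn2, hxe2, hW2, hq2⟩ := stepA k p m x2 y2 hp hp2 hk hp0 hm hn hx2 hy2 hyk2 h2
  generalize hn' : m ^ 2 = n at *
  have hA : ∀ z W : ℤ, 0 < z → z < n → 0 < W → W ^ 2 = z ^ 2 * (k ^ 2 + 1) - n ^ 2 →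
      0 < k * z - W ∧ k * z - W < n ∧ 2 * k * (k * z - W) * z = n ^ 2 + (k * z - W) ^ 2 - z ^ 2 := by
    intro z W hz hzn hW hq
    have e1 : (k * z - W) * (k * z + W) = n ^ 2 - z ^ 2 := by linear_combination (-1) * hq
    have e2 : 0 < n ^ 2 - z ^ 2 := by
      have := pow_lt_pow_left₀ hzn hz.le two_ne_zero
      linarith
    have e3 : 0 < k * z + W := by positivity
    have e4 : 0 < k * z - W := by
      have : 0 < (k * z - W) * (k * z + W) := by rw [e1]; exact e2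
      exact (mul_pos_iff_of_pos_right e3).mp this
    refine ⟨e4, ?_, by linear_combination (-1) * hq⟩
    by_contra hcon
    have e5 : n ≤ k * z - W := not_lt.mp hcon
    nlinarith
  obtain ⟨a1, a2, a3⟩ := hA z1 _ hz1 hzn1 hW1 hq1
  obtain ⟨b1, b2, b3⟩ := hA z2 _ hz2 hzn2 hW2 hq2
  obtain ⟨hz, hAA⟩ := uniqZA k n z1 z2 _ _ hk0 hn0 hn hz1 hz2 a1 b1 a2 b2 a3 b3
  subst hz
  have hWW : n * y1 - ε1 * z1 = n * y2 - ε2 * z1 := by linarith
  have hfin : ε1 = ε2 := by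
    by_contra hne
    have hcase : ∀ ya yb : ℤ, n * (ya - yb) = 2 * z1 → False := by
      intro ya yb hyy
      exact half_case k n z1 _ (ya - yb) hn0 hz1 hzn1 a1 a2 hmk hyy a3
    rcases hε1 with e1 | e1 <;> rcases hε2 with e2 | e2
    · exact hne (e1.trans e2.symm)
    · rw [e1, e2] at hWW
      exact hcase y1 y2 (by linarith)
    · rw [e1, e2] at hWW
      exact hcase y2 y1 (by linarith)
    · exact hne (e1.trans e2.symm)
  subst hfin
  have hy : y1 = y2 := by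
    have : n * y1 = n * y2 := by linarith
    exact mul_left_cancel₀ hn0.ne' this
  refine ⟨?_, hy⟩
  rw [hxe1, hxe2, hy]

end Pool.Agent.Helper590.Duj
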