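import Mathlib

set_option autoImplicit false

namespace Pool.Agent.Helper590.Duj

theorem endB (k m A z : ℤ) (hk : 0 < k) (hm : 0 < m) (hA0 : 0 < A) (hz : 0 < z) (hAm : A < m)
    (h6 : 6 * m ^ 3 ≤ k ^ 2) (h12 : 2 * k * (A * z) < (m + A) ^ 2) (h9 : m ≤ A ^ 2 + z ^ 2) : False := by
  have hA1 : 1 ≤ A := hA0
  have hz1 : 1 ≤ z := hz
  have h10 : A ^ 2 + z ^ 2 ≤ (A * z) ^ 2 + 1 := by
    have e2 : 0 ≤ A ^ 2 - 1 := by nlinarith
    have e3 : 0 ≤ z ^ 2 - 1 := by nlinarith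
    have e1 : 0 ≤ (A ^ 2 - 1) * (z ^ 2 - 1) := mul_nonneg e2 e3
    linarith
  have hAz : A * 1 ≤ A * z := mul_le_mul_of_nonneg_left hz1 hA0.le
  have hP1 : 1 ≤ A * z := by linarith
  obtain ⟨P, hP⟩ : ∃ P, P = A * z := ⟨_, rfl⟩
  rw [← hP] at h10 h12 hAz hP1
  have e1 : (m + A) ^ 2 < (2 * m) ^ 2 := pow_lt_pow_left₀ (by linarith) (by positivity) two_ne_zero
  have hkP : k * 1 ≤ k * P := mul_le_mul_of_nonneg_left hP1 hk.le
  have h13 : k < 2 * m ^ 2 := by linarith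
  have h14 : 3 * m < k := by
    have e2 : k * k < k * (2 * m ^ 2) := mul_lt_mul_of_pos_left h13 hk
    have e3 : m ^ 2 * (3 * m) < m ^ 2 * k := by linarith
    exact lt_of_mul_lt_mul_left e3 (by positivity)
  have h15 : 3 * P < 2 * m := by
    have e2 : (3 * m) * P ≤ k * P := mul_le_mul_of_nonneg_right h14.le (by linarith)
    have e3 : m * (3 * P) < m * (2 * m) := by linarith
    exact lt_of_mul_lt_mul_left e3 hm.le
  have h16 : (3 * (m + A)) ^ 2 ≤ (5 * m) ^ 2 := pow_le_pow_left₀ (by positivity) (by linarith) 2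
  have h17 : 18 * (k * P) < 25 * m ^ 2 := by linarith
  have h18 : (18 * (k * P)) ^ 2 < (25 * m ^ 2) ^ 2 := pow_lt_pow_left₀ h17 (by positivity) two_ne_zero
  have h19 : m - 1 ≤ P ^ 2 := by linarith
  have h20 : (6 * m ^ 3) * (m - 1) ≤ k ^ 2 * P ^ 2 := by
    apply mul_le_mul h6 h19 (by linarith) (by positivity)
  have h22 : m ^ 3 * (1944 * (m - 1)) < m ^ 3 * (625 * m) := by linarith
  have h23 := lt_of_mul_lt_mul_left h22 (by positivity)
  have h24 : m ≤ 1 := by omega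
  linarith

/-- side B: k^2+1 = q m, x = eps k + q z: the auxiliary data of a nontrivial solution -/
theorem stepB (k q m x y z ε : ℤ) (hε : ε = 1 ∨ ε = -1) (hqm : k ^ 2 + 1 = q * m) (hm : 0 < m) (hq : 0 < q)
    (hmk : m < k) (hx : 0 < x) (hy : 0 < y) (hyk : y ≤ k - 2)
    (h : x ^ 2 = (k ^ 2 + 1) * y ^ 2 + k ^ 2) (hxz : x = ε * k + q * z) :
    ∃ A : ℤ, 0 < A ∧ A < m ∧ 0 < z ∧ z < m ∧ 2 * k * (A * z) = (m - ε * A) ^ 2 - z ^ 2 ∧
      m ≤ A ^ 2 + z ^ 2 ∧ k * z - A = m * (y - ε) := by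
  have hk : 0 < k := by linarith
  have hε2 : ε ^ 2 = 1 := by rcases hε with h1 | h1 <;> rw [h1] <;> norm_num
  have hxk : k < x := by
    by_contra hcon
    have h1 : x ≤ k := not_lt.mp hcon
    have h2 : x ^ 2 ≤ k ^ 2 := pow_le_pow_left₀ hx.le h1 2
    have h3 : 0 < (k ^ 2 + 1) * y ^ 2 := by positivity
    linarith
  have hz : 0 < z := by
    have h1 : 0 < q * z := by
      have : q * z = x - ε * k := by linarith
      rw [this]
      rcases hε with h1 | h1 <;> rw [h1] <;> linarith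
    exact (mul_pos_iff_of_pos_left hq).mp h1
  have h1 : m * y ^ 2 = z * (2 * ε * k + q * z) := by
    have h2 : q * (m * y ^ 2) = q * (z * (2 * ε * k + q * z)) := by
      have h3 := h
      rw [hxz] at h3
      linear_combination (-1) * h3 + k ^ 2 * hε2 - y ^ 2 * hqm
    exact mul_left_cancel₀ hq.ne' h2
  -- w = k z + eps m
  have h2 : (k * z + ε * m) ^ 2 - (m * y) ^ 2 = m ^ 2 - z ^ 2 := by
    linear_combination (-m) * h1 + m ^ 2 * hε2 + z ^ 2 * hqm
  have hw : 0 < k * z + ε * m := by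
    have : k * 1 ≤ k * z := by
      apply mul_le_mul_of_nonneg_left _ hk.le
      linarith
    rcases hε with h3 | h3 <;> rw [h3] <;> linarith
  have hzm : z < m := by
    by_contra hcon
    have h3 : m ≤ z := not_lt.mp hcon
    have h4 : m ^ 2 ≤ z ^ 2 := pow_le_pow_left₀ hm.le h3 2
    have h5 : (k * z + ε * m) ^ 2 ≤ (m * y) ^ 2 := by linarith
    have h6 : k * z + ε * m ≤ m * y := (pow_le_pow_iff_left₀ hw.le (by positivity) two_ne_zero).mp h5
    have h7 : m * y ≤ m * (k - 2) := mul_le_mul_of_nonneg_left hyk hm.le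
    have h8 : k * m ≤ k * z := mul_le_mul_of_nonneg_left h3 hk.le
    rcases hε with h9 | h9 <;> rw [h9] at h6 <;> nlinarith
  obtain ⟨A, hA⟩ : ∃ A, A = k * z + ε * m - m * y := ⟨_, rfl⟩
  have h3 : A * (k * z + ε * m + m * y) = m ^ 2 - z ^ 2 := by rw [hA]; linear_combination h2
  have h4 : 0 < m ^ 2 - z ^ 2 := by
    have := pow_lt_pow_left₀ hzm hz.le two_ne_zero
    linarith
  have h5 : 0 < k * z + ε * m + m * y := by positivity
  have hA0 : 0 < A := by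
    have : 0 < A * (k * z + ε * m + m * y) := by rw [h3]; exact h4
    exact (mul_pos_iff_of_pos_right h5).mp this
  have hAm : A < m := by
    by_contra hcon
    have h6 : m ≤ A := not_lt.mp hcon
    have h7 : A < k * z + ε * m + m * y := by
      have : 0 < m * y := by positivity
      linarith
    have h8 : m * m ≤ A * A := mul_le_mul h6 h6 hm.le hA0.le
    have h9 : A * A < A * (k * z + ε * m + m * y) := mul_lt_mul_of_pos_left h7 hA0
    have h10 : 0 < z ^ 2 := by positivity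
    linarith
  have h7 : 2 * k * (A * z) = (m - ε * A) ^ 2 - z ^ 2 := by
    have e1 : k * z + ε * m + m * y = 2 * (k * z + ε * m) - A := by rw [hA]; ring
    rw [e1] at h3
    linear_combination h3 - A ^ 2 * hε2
  -- m divides A^2 + z^2
  have h8 : m ∣ A ^ 2 + z ^ 2 := by
    refine ⟨q * z ^ 2 - 2 * k * z * (y - ε) + m * (y - ε) ^ 2, ?_⟩
    have e1 : A = k * z - m * (y - ε) := by rw [hA]; ring
    rw [e1]
    linear_combination z ^ 2 * hqm
  have h9 : m ≤ A ^ 2 + z ^ 2 := Int.le_of_dvd (by positivity) h8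
  exact ⟨A, hA0, hAm, hz, hzm, h7, h9, by rw [hA]; ring⟩

theorem sideB (k q m x y z ε : ℤ) (hε : ε = 1 ∨ ε = -1) (hqm : k ^ 2 + 1 = q * m) (hm : 0 < m) (hq : 0 < q)
    (h6 : 6 * m ^ 3 ≤ k ^ 2) (hx : 0 < x) (hy : 0 < y) (hyk : y ≤ k - 2)
    (h : x ^ 2 = (k ^ 2 + 1) * y ^ 2 + k ^ 2) (hxz : x = ε * k + q * z) : False := by
  have hk : 0 < k := by linarith
  have hmk : m < k := by
    by_contra hcon
    have h3 : k ≤ m := not_lt.mp hcon
    have h4 : k ^ 2 ≤ m ^ 2 := pow_le_pow_left₀ hk.le h3 2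
    have h5 : m ^ 2 * 1 ≤ m ^ 2 * m := by
      apply mul_le_mul_of_nonneg_left _ (by positivity)
      linarith
    nlinarith
  obtain ⟨A, hA0, hAm, hz, hzm, h7, h9, _⟩ := stepB k q m x y z ε hε hqm hm hq hmk hx hy hyk h hxz
  have h11 : (m - ε * A) ^ 2 ≤ (m + A) ^ 2 := by
    have : 0 < m * A := mul_pos hm hA0
    rcases hε with e1 | e1 <;> rw [e1] <;> linarith
  have h12 : 2 * k * (A * z) < (m + A) ^ 2 := by
    have : 0 < z ^ 2 := by positivity
    linarith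
  exact endB k m A z hk hm hA0 hz hAm h6 h12 h9

/-- a vector with both coordinates large is impossible -/
theorem big_both (m A z P : ℤ) (hm : 0 < m) (hA : 0 < A) (hz : 0 < z) (hP : 0 < P)
    (h1 : m ≤ 2 * P * A) (h2 : m ≤ 2 * P * z) (h3 : A * z ≤ P) (h4 : m ≤ A ^ 2 + z ^ 2)
    (h5 : 8 * P ^ 4 < m ^ 3) : False := by
  have e1 : m * A ≤ 2 * P ^ 2 := by
    have : m * A ≤ 2 * P * z * A := mul_le_mul_of_nonneg_right h2 hA.le
    have : 2 * P * (A * z) ≤ 2 * P * P := mul_le_mul_of_nonneg_left h3 (by linarith)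
    linarith
  have e2 : m * z ≤ 2 * P ^ 2 := by
    have : m * z ≤ 2 * P * A * z := mul_le_mul_of_nonneg_right h1 hz.le
    have : 2 * P * (A * z) ≤ 2 * P * P := mul_le_mul_of_nonneg_left h3 (by linarith)
    linarith
  have e3 : (m * A) ^ 2 ≤ (2 * P ^ 2) ^ 2 := pow_le_pow_left₀ (by positivity) e1 2
  have e4 : (m * z) ^ 2 ≤ (2 * P ^ 2) ^ 2 := pow_le_pow_left₀ (by positivity) e2 2
  have e5 : m ^ 2 * m ≤ m ^ 2 * (A ^ 2 + z ^ 2) := mul_le_mul_of_nonneg_left h4 (by positivity)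
  nlinarith

theorem det_zero (m A1 z1 A2 z2 P : ℤ) (hm : 0 < m) (hA1 : 0 < A1) (hz1 : 0 < z1) (hA2 : 0 < A2) (hz2 : 0 < z2)
    (hP1 : A1 * z1 ≤ P) (hP2 : A2 * z2 ≤ P) (h1 : m ≤ A1 ^ 2 + z1 ^ 2) (h2 : m ≤ A2 ^ 2 + z2 ^ 2)
    (h5 : 8 * P ^ 4 < m ^ 3) (hC : m ≤ A1 * A2 + z1 * z2) (hD : m ≤ A1 * z2 - A2 * z1) : False := by
  have hA1P : A1 * 1 ≤ A1 * z1 := mul_le_mul_of_nonneg_left hz1 hA1.le
  have hz2P : 1 * z2 ≤ A2 * z2 := mul_le_mul_of_nonneg_right hA2 hz2.le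
  have hP : 0 < P := by linarith
  have hA2z1 : 0 < A2 * z1 := mul_pos hA2 hz1
  rcases le_total m (2 * (A1 * A2)) with h | h
  · have e1 : A1 * A2 ≤ P * A2 := mul_le_mul_of_nonneg_right (by linarith) hA2.le
    have e2 : A1 * z2 ≤ P * z2 := mul_le_mul_of_nonneg_right (by linarith) hz2.le
    have e3 : 0 < P * z2 := mul_pos hP hz2
    exact big_both m A2 z2 P hm hA2 hz2 hP (by linarith) (by linarith) hP2 h2 h5
  · have e1 : z1 * z2 ≤ z1 * P := mul_le_mul_of_nonneg_left (by linarith) hz1.le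
    have e2 : A1 * z2 ≤ A1 * P := mul_le_mul_of_nonneg_left (by linarith) hA1.le
    have e3 : 0 < A1 * P := mul_pos hA1 hP
    exact big_both m A1 z1 P hm hA1 hz1 hP (by linarith) (by linarith) hP1 h1 h5

/-- opposite signs in the parallel case -/
theorem opp_case (k m A1 z1 A2 z2 u v : ℤ) (hk : 0 < k) (hm : 0 < m) (hmk : m < k)
    (hA1 : 0 < A1) (hz1 : 0 < z1) (hA2 : 0 < A2) (hA1m : A1 < m)
    (h1 : 2 * k * (A1 * z1) = (m - A1) ^ 2 - z1 ^ 2) (h2 : 2 * k * (A2 * z2) = (m + A2) ^ 2 - z2 ^ 2)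
    (hpar : A1 * z2 = A2 * z1) (hu : k * z1 - A1 = m * u) (hv : k * z2 - A2 = m * v) : False := by
  have hu0 : 0 < u := by
    have e1 : k * 1 ≤ k * z1 := mul_le_mul_of_nonneg_left hz1 hk.le
    have : 0 < m * u := by linarith
    exact (mul_pos_iff_of_pos_left hm).mp this
  have huv : u * A2 = v * A1 := by
    have : m * (u * A2) = m * (v * A1) := by linear_combination A1 * hv - A2 * hu - k * hpar
    exact mul_left_cancel₀ hm.ne' this
  -- m (A2 - A1) = 2 A1 A2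
  have h3 : m * (A2 - A1) = 2 * A1 * A2 := by
    have e1 : (m * (A1 + A2)) * (m * (A2 - A1)) = (m * (A1 + A2)) * (2 * A1 * A2) := by
      linear_combination A1 ^ 2 * h2 - A2 ^ 2 * h1 - (2 * k * A1 * A2 + A1 * z2 + A2 * z1) * hpar
    exact mul_left_cancel₀ (by positivity) e1
  have h4 : m * (v - u) = 2 * A1 * v := by
    have e1 : A1 * (m * (v - u)) = A1 * (2 * A1 * v) := by
      linear_combination u * h3 - (m - 2 * A1) * huv
    exact mul_left_cancel₀ hA1.ne' e1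
  have hv0 : 0 < v := by
    have : 0 < v * A1 := by rw [← huv]; positivity
    exact (mul_pos_iff_of_pos_right hA1).mp this
  have h5 : 0 < v - u := by
    have : 0 < m * (v - u) := by rw [h4]; positivity
    exact (mul_pos_iff_of_pos_left hm).mp this
  have h6 : 0 < m ^ 2 - 2 * m * A1 * (1 + u) - A1 ^ 2 := by
    have e1 : z1 ^ 2 = m ^ 2 - 2 * m * A1 * (1 + u) - A1 ^ 2 := by
      linear_combination h1 - 2 * A1 * hu
    rw [← e1]; positivity
  have h7 : 2 * A1 * (1 + u) < m := by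
    have : m * (2 * A1 * (1 + u)) < m * m := by nlinarith
    exact lt_of_mul_lt_mul_left this hm.le
  have h8 : 2 * A1 * ((1 + u) * (v - u)) < 2 * A1 * v := by
    have := mul_lt_mul_of_pos_right h7 h5
    linarith
  have h9 : (1 + u) * (v - u) < v := lt_of_mul_lt_mul_left h8 (by positivity)
  have h10 : u * 1 ≤ u * (v - u) := mul_le_mul_of_nonneg_left h5 hu0.le
  linarith

/-- two solutions attached to the same factor are equal, if `128 m^5 ≤ k^4` -/
theorem uniqB (k q m x1 y1 z1 ε1 x2 y2 z2 ε2 : ℤ) (hε1 : ε1 = 1 ∨ ε1 = -1) (hε2 : ε2 = 1 ∨ ε2 = -1)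
    (hqm : k ^ 2 + 1 = q * m) (hm : 0 < m) (hq : 0 < q)
    (h128 : 128 * m ^ 5 ≤ k ^ 4) (hx1 : 0 < x1) (hy1 : 0 < y1) (hyk1 : y1 ≤ k - 2)
    (h1 : x1 ^ 2 = (k ^ 2 + 1) * y1 ^ 2 + k ^ 2) (hxz1 : x1 = ε1 * k + q * z1)
    (hx2 : 0 < x2) (hy2 : 0 < y2) (hyk2 : y2 ≤ k - 2)
    (h2 : x2 ^ 2 = (k ^ 2 + 1) * y2 ^ 2 + k ^ 2) (hxz2 : x2 = ε2 * k + q * z2) : x1 = x2 ∧ y1 = y2 := by
  have hk : 0 < k := by linarith
  have hmk : m < k := by
    by_contra hcon
    have h3 : k ≤ m := not_lt.mp hcon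
    have h4 : k ^ 4 ≤ m ^ 4 := pow_le_pow_left₀ hk.le h3 4
    have h5 : m ^ 4 * 1 ≤ m ^ 4 * m := by
      apply mul_le_mul_of_nonneg_left _ (by positivity)
      linarith
    have h6 : 0 < m ^ 4 := by positivity
    nlinarith
  obtain ⟨A1, hA10, hA1m, hz10, hz1m, h71, h91, hl1⟩ :=
    stepB k q m x1 y1 z1 ε1 hε1 hqm hm hq hmk hx1 hy1 hyk1 h1 hxz1
  obtain ⟨A2, hA20, hA2m, hz20, hz2m, h72, h92, hl2⟩ :=
    stepB k q m x2 y2 z2 ε2 hε2 hqm hm hq hmk hx2 hy2 hyk2 h2 hxz2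
  have bound : ∀ A z ε : ℤ, (ε = 1 ∨ ε = -1) → 0 < A → A < m → 0 < z →
      2 * k * (A * z) = (m - ε * A) ^ 2 - z ^ 2 → k * (A * z) < 2 * m ^ 2 := by
    intro A z ε hε hA hAm hz he
    have e1 : (m - ε * A) ^ 2 ≤ (m + A) ^ 2 := by
      have : 0 < m * A := mul_pos hm hA
      rcases hε with e1 | e1 <;> rw [e1] <;> linarith
    have e2 : (m + A) ^ 2 < (2 * m) ^ 2 := pow_lt_pow_left₀ (by linarith) (by positivity) two_ne_zero
    have e3 : 0 < z ^ 2 := by positivity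
    linarith
  have hb1 := bound A1 z1 ε1 hε1 hA10 hA1m hz10 h71
  have hb2 := bound A2 z2 ε2 hε2 hA20 hA2m hz20 h72
  obtain ⟨P, hP1, hP2, hPb⟩ : ∃ P : ℤ, A1 * z1 ≤ P ∧ A2 * z2 ≤ P ∧ k * P < 2 * m ^ 2 := by
    refine ⟨max (A1 * z1) (A2 * z2), le_max_left _ _, le_max_right _ _, ?_⟩
    rcases max_choice (A1 * z1) (A2 * z2) with h | h <;> rw [h]
    · exact hb1
    · exact hb2
  have hP0 : 0 < P := lt_of_lt_of_le (mul_pos hA10 hz10) hP1
  have hP4 : 8 * P ^ 4 < m ^ 3 := by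
    have e1 : (k * P) ^ 4 < (2 * m ^ 2) ^ 4 := pow_lt_pow_left₀ hPb (by positivity) (by norm_num)
    have e2 : 128 * m ^ 5 * P ^ 4 ≤ k ^ 4 * P ^ 4 := mul_le_mul_of_nonneg_right h128 (by positivity)
    have e3 : m ^ 5 * (8 * P ^ 4) < m ^ 5 * m ^ 3 := by nlinarith
    exact lt_of_mul_lt_mul_left e3 (by positivity)
  -- divisibilities
  have hDdvd : m ∣ A1 * z2 - A2 * z1 := by
    refine ⟨(y2 - ε2) * z1 - (y1 - ε1) * z2, ?_⟩
    linear_combination z1 * hl2 - z2 * hl1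
  have hCdvd : m ∣ A1 * A2 + z1 * z2 := by
    refine ⟨q * z1 * z2 - k * z1 * (y2 - ε2) - k * z2 * (y1 - ε1) + m * (y1 - ε1) * (y2 - ε2), ?_⟩
    have e1 : A1 = k * z1 - m * (y1 - ε1) := by linarith
    have e2 : A2 = k * z2 - m * (y2 - ε2) := by linarith
    rw [e1, e2]
    linear_combination z1 * z2 * hqm
  have hC : m ≤ A1 * A2 + z1 * z2 := Int.le_of_dvd (by positivity) hCdvd
  rcases lt_trichotomy (A1 * z2 - A2 * z1) 0 with hD | hD | hD
  · exfalso
    have hD' : m ≤ A2 * z1 - A1 * z2 := by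
      apply Int.le_of_dvd (by linarith)
      have := hDdvd.neg_right
      rwa [neg_sub] at this
    exact det_zero m A2 z2 A1 z1 P hm hA20 hz20 hA10 hz10 hP2 hP1 h92 h91 hP4 (by linarith) hD'
  · have hpar : A1 * z2 = A2 * z1 := by linarith
    -- m (A2^2 - A1^2) = 2 A1 A2 (ε1 A2 - ε2 A1)
    have hsq1 : ε1 ^ 2 = 1 := by rcases hε1 with h | h <;> rw [h] <;> norm_num
    have hsq2 : ε2 ^ 2 = 1 := by rcases hε2 with h | h <;> rw [h] <;> norm_num
    have hmain : m * (m * (A2 ^ 2 - A1 ^ 2)) = m * (2 * A1 * A2 * (ε1 * A2 - ε2 * A1)) := by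
      linear_combination A1 ^ 2 * h72 - A2 ^ 2 * h71 - (2 * k * A1 * A2 + A1 * z2 + A2 * z1) * hpar
        + A1 ^ 2 * A2 ^ 2 * hsq2 - A1 ^ 2 * A2 ^ 2 * hsq1
    have hmain' := mul_left_cancel₀ hm.ne' hmain
    by_cases hεε : ε1 = ε2
    · subst hεε
      have hA : A1 = A2 := by
        by_contra hne
        have e1 : (A2 - A1) * (m * (A1 + A2)) = (A2 - A1) * (2 * ε1 * A1 * A2) := by
          linear_combination hmain'
        have e2 : m * (A1 + A2) = 2 * ε1 * A1 * A2 :=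
          mul_left_cancel₀ (fun h => hne (by linarith)) e1
        have e3 : A1 * A2 < m * A2 := mul_lt_mul_of_pos_right hA1m hA20
        have e4 : A1 * A2 < A1 * m := mul_lt_mul_of_pos_left hA2m hA10
        have e5 : 0 < A1 * A2 := mul_pos hA10 hA20
        rcases hε1 with h | h <;> rw [h] at e2 <;> linarith
      subst hA
      have hz : z1 = z2 := by
        have : A1 * z1 = A1 * z2 := by linarith
        exact mul_left_cancel₀ hA10.ne' this
      subst hz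
      refine ⟨by rw [hxz1, hxz2], ?_⟩
      have : m * y1 = m * y2 := by linarith
      exact mul_left_cancel₀ hm.ne' this
    · exfalso
      rcases hε1 with e1 | e1 <;> rcases hε2 with e2 | e2 <;> subst e1 <;> subst e2
      · exact hεε rfl
      · exact opp_case k m A1 z1 A2 z2 (y1 - 1) (y2 + 1) hk hm hmk hA10 hz10 hA20 hA1m
          (by linarith) (by linarith) hpar hl1 (by linarith)
      · exact opp_case k m A2 z2 A1 z1 (y2 - 1) (y1 + 1) hk hm hmk hA20 hz20 hA10 hA2m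
          (by linarith) (by linarith) hpar.symm hl2 (by linarith)
      · exact hεε rfl
  · exfalso
    have hD' : m ≤ A1 * z2 - A2 * z1 := Int.le_of_dvd (by linarith) hDdvd
    exact det_zero m A1 z1 A2 z2 P hm hA10 hz10 hA20 hz20 hP1 hP2 h91 h92 hP4 hC hD'

end Pool.Agent.Helper590.Duj
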