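import Mathlib
import Pool.Agent.Helper590.Duj.SideA
import Pool.Agent.Helper590.Duj.SideB

set_option autoImplicit false

namespace Pool.Agent.Helper590.Duj

theorem noneA (k p m x y : ℤ) (hp : Prime p) (hp2 : ¬ p ∣ 2) (hk : k = p * m) (hp0 : 0 < p)
    (hm : 0 < m) (h2m : 2 * m ^ 3 ≤ k)
    (hx : 0 < x) (hy : 0 < y) (hyk : y ≤ k - 2) (h : x ^ 2 = (k ^ 2 + 1) * y ^ 2 + k ^ 2) : False := by
  have hk0 : 0 < k := by rw [hk]; positivity
  have hn : (m ^ 2) ^ 4 < k ^ 3 := by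
    have e1 : (2 * m ^ 3) ^ 3 ≤ k ^ 3 := pow_le_pow_left₀ (by positivity) h2m 3
    have e2 : m ^ 8 * 1 ≤ m ^ 8 * m := mul_le_mul_of_nonneg_left hm (by positivity)
    have e3 : 0 < m ^ 8 := by positivity
    nlinarith
  have hmk : m ^ 2 < k := n_lt_k k (m ^ 2) hk0 (by positivity) hn
  obtain ⟨z, ε, hε, hz, hzn, hxe, hW, hq⟩ := stepA k p m x y hp hp2 hk hp0 hm hn hx hy hyk h
  obtain ⟨W, hWd⟩ : ∃ W, W = m ^ 2 * y - ε * z := ⟨_, rfl⟩
  rw [← hWd] at hW hq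
  obtain ⟨A, hA⟩ : ∃ A, A = k * z - W := ⟨_, rfl⟩
  have e1 : A * (k * z + W) = (m ^ 2) ^ 2 - z ^ 2 := by rw [hA]; linear_combination (-1) * hq
  have e2 : 0 < (m ^ 2) ^ 2 - z ^ 2 := by
    have := pow_lt_pow_left₀ hzn hz.le two_ne_zero
    linarith
  have e3 : 0 < k * z + W := by positivity
  have hA0 : 0 < A := by
    have : 0 < A * (k * z + W) := by rw [e1]; exact e2
    exact (mul_pos_iff_of_pos_right e3).mp this
  have hAn : A < m ^ 2 := by
    by_contra hcon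
    have e5 : m ^ 2 ≤ A := not_lt.mp hcon
    have e6 : A < k * z + W := by rw [hA]; linarith
    have e7 : m ^ 2 * m ^ 2 ≤ A * A := mul_le_mul e5 e5 (by positivity) hA0.le
    have e8 : A * A < A * (k * z + W) := mul_lt_mul_of_pos_left e6 hA0
    have e9 : 0 < z ^ 2 := by positivity
    linarith
  have hmain : 2 * k * (A * z) = (m ^ 2) ^ 2 + A ^ 2 - z ^ 2 := by
    have : W = k * z - A := by rw [hA]; ring
    rw [this] at hq
    linear_combination (-1) * hq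
  have hmd : m ∣ A - ε * z := by
    refine ⟨p * z - m * y, ?_⟩
    rw [hA, hWd, hk]
    ring
  have hbound : 2 * k * (A * z) < 2 * (m ^ 2) ^ 2 := by
    have e4 : A ^ 2 < (m ^ 2) ^ 2 := pow_lt_pow_left₀ hAn hA0.le two_ne_zero
    have e5 : 0 < z ^ 2 := by positivity
    linarith
  have hA1 : 1 ≤ A := hA0
  have hz1 : 1 ≤ z := hz
  have hAz : A + z - 1 ≤ A * z := by nlinarith
  have hsum : m ≤ A + z := by
    rcases hε with e | e
    · rw [e, one_mul] at hmd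
      by_cases hne : A - z = 0
      · exfalso
        have hAe : A = z := by linarith
        rw [hAe] at hmain
        have h1 : 2 * p * z ^ 2 = m ^ 3 := by
          have : m * (2 * p * z ^ 2) = m * m ^ 3 := by
            rw [hk] at hmain
            linear_combination hmain
          exact mul_left_cancel₀ hm.ne' this
        have h2 : p ∣ m := by
          have : p ∣ m ^ 3 := ⟨2 * z ^ 2, by rw [← h1]; ring⟩
          exact hp.dvd_of_dvd_pow this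
        have h3 : p ≤ m := Int.le_of_dvd hm h2
        have h4 : p * m ≤ m * m := mul_le_mul_of_nonneg_right h3 hm.le
        rw [← hk] at h4
        nlinarith
      · have h1 : m ≤ |A - z| := Int.le_of_dvd (abs_pos.mpr hne) ((dvd_abs _ _).mpr hmd)
        rcases le_total 0 (A - z) with h2 | h2
        · rw [abs_of_nonneg h2] at h1
          linarith
        · rw [abs_of_nonpos h2] at h1
          linarith
    · rw [e] at hmd
      have h1 : m ≤ A - -1 * z := Int.le_of_dvd (by linarith) hmd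
      linarith
  have h1 : k * (m - 1) ≤ k * (A * z) := mul_le_mul_of_nonneg_left (by linarith) hk0.le
  have h2 : 2 * m ^ 3 * (m - 1) ≤ k * (m - 1) := mul_le_mul_of_nonneg_right h2m (by linarith)
  have h3 : m ^ 3 * (2 * (m - 1)) < m ^ 3 * m := by linarith
  have h4 := lt_of_mul_lt_mul_left h3 (by positivity)
  have h5 : m = 1 := by omega
  rw [h5] at hzn
  linarith

/-- the classes modulo `q`, a prime power or twice a prime power -/
theorem clsB (p e c : ℕ) (hp : p.Prime) (hodd : p ≠ 2) (hc : c = 1 ∨ c = 2) (k x : ℤ)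
    (hq : ((c * p ^ e : ℕ) : ℤ) ∣ k ^ 2 + 1) (h : ((c * p ^ e : ℕ) : ℤ) ∣ x ^ 2 - k ^ 2) :
    ((c * p ^ e : ℕ) : ℤ) ∣ x - k ∨ ((c * p ^ e : ℕ) : ℤ) ∣ x + k := by
  have hp' : Prime (p : ℤ) := Nat.prime_iff_prime_int.mp hp
  have hpe : ((p ^ e : ℕ) : ℤ) ∣ ((c * p ^ e : ℕ) : ℤ) := by
    exact_mod_cast dvd_mul_left (p ^ e) c
  have hodd' : ¬ (p : ℤ) ∣ 2 := by
    intro h1
    have h2 : p ∣ 2 := by exact_mod_cast h1
    exact hodd ((Nat.prime_dvd_prime_iff_eq hp Nat.prime_two).mp h2)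
  have key : ((p ^ e : ℕ) : ℤ) ∣ x - k ∨ ((p ^ e : ℕ) : ℤ) ∣ x + k := by
    rcases Nat.eq_zero_or_pos e with he | he
    · left
      rw [he]; simp
    have hpk : ¬ (p : ℤ) ∣ k := by
      intro h1
      have h2 : (p : ℤ) ∣ ((p ^ e : ℕ) : ℤ) := by
        exact_mod_cast dvd_pow_self p he.ne'
      have h3 : (p : ℤ) ∣ k ^ 2 + 1 := h2.trans (hpe.trans hq)
      have h4 : (p : ℤ) ∣ k ^ 2 := dvd_pow h1 two_ne_zero
      have h5 : (p : ℤ) ∣ 1 := (dvd_add_right h4).mp h3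
      exact hp'.not_dvd_one h5
    have h1 : ((p ^ e : ℕ) : ℤ) ∣ (x - k) * (x + k) := by
      have : x ^ 2 - k ^ 2 = (x - k) * (x + k) := by ring
      rw [← this]
      exact hpe.trans h
    push_cast at h1 ⊢
    by_cases hd : (p : ℤ) ∣ x - k
    · left
      have h2 : ¬ (p : ℤ) ∣ x + k := by
        intro h3
        have h4 : (p : ℤ) ∣ 2 * k := by
          have := dvd_sub h3 hd
          have e : x + k - (x - k) = 2 * k := by ring
          rwa [e] at this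
        rcases hp'.dvd_or_dvd h4 with h5 | h5
        · exact hodd' h5
        · exact hpk h5
      have h3 : IsCoprime ((p : ℤ) ^ e) (x + k) := (hp'.coprime_iff_not_dvd.mpr h2).pow_left
      exact h3.dvd_of_dvd_mul_right h1
    · right
      have h3 : IsCoprime ((p : ℤ) ^ e) (x - k) := (hp'.coprime_iff_not_dvd.mpr hd).pow_left
      exact h3.dvd_of_dvd_mul_left h1
  rcases hc with hc | hc
  · subst hc
    simpa using key
  · subst hc
    have hcop : IsCoprime (2 : ℤ) ((p ^ e : ℕ) : ℤ) := by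
      push_cast
      apply IsCoprime.pow_right
      exact ((hp'.coprime_iff_not_dvd).mpr hodd').symm
    have h2q : (2 : ℤ) ∣ ((2 * p ^ e : ℕ) : ℤ) := by
      exact_mod_cast dvd_mul_right 2 (p ^ e)
    have hk2 : (2 : ℤ) ∣ k ^ 2 + 1 := h2q.trans hq
    have hx2 : (2 : ℤ) ∣ x ^ 2 - k ^ 2 := h2q.trans h
    have hkodd : k % 2 = 1 := by
      rcases Int.emod_two_eq_zero_or_one k with h1 | h1
      · exfalso
        obtain ⟨j, hj⟩ : (2 : ℤ) ∣ k := Int.dvd_of_emod_eq_zero h1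
        rw [hj] at hk2
        obtain ⟨i, hi⟩ := hk2
        have : (2 * j) ^ 2 = 2 * (2 * j ^ 2) := by ring
        omega
      · exact h1
    have hxodd : x % 2 = 1 := by
      rcases Int.emod_two_eq_zero_or_one x with h1 | h1
      · exfalso
        have h3 : (2 : ℤ) ∣ (x - k) * (x + k) := by
          have : x ^ 2 - k ^ 2 = (x - k) * (x + k) := by ring
          rwa [this] at hx2
        rcases Int.prime_two.dvd_or_dvd h3 with h4 | h4 <;> omega
      · exact h1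
    have hsub : (2 : ℤ) ∣ x - k := by omega
    have hadd : (2 : ℤ) ∣ x + k := by omega
    have e1 : ((2 * p ^ e : ℕ) : ℤ) = 2 * ((p ^ e : ℕ) : ℤ) := by push_cast; ring
    rw [e1]
    rcases key with h1 | h1
    · exact Or.inl (hcop.mul_dvd hsub h1)
    · exact Or.inr (hcop.mul_dvd hadd h1)

/-- the data needed on side B -/
theorem dataB (p e c : ℕ) (hp : p.Prime) (hodd : p ≠ 2) (hc : c = 1 ∨ c = 2) (k x y : ℤ)
    (hq : ((c * p ^ e : ℕ) : ℤ) ∣ k ^ 2 + 1) (h : x ^ 2 = (k ^ 2 + 1) * y ^ 2 + k ^ 2) :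
    ∃ ε z : ℤ, (ε = 1 ∨ ε = -1) ∧ x = ε * k + ((c * p ^ e : ℕ) : ℤ) * z := by
  have h1 : ((c * p ^ e : ℕ) : ℤ) ∣ x ^ 2 - k ^ 2 := by
    have : x ^ 2 - k ^ 2 = (k ^ 2 + 1) * y ^ 2 := by linarith
    rw [this]
    exact hq.mul_right _
  rcases clsB p e c hp hodd hc k x hq h1 with ⟨z, hz⟩ | ⟨z, hz⟩
  · exact ⟨1, z, Or.inl rfl, by linarith⟩
  · exact ⟨-1, z, Or.inr rfl, by linarith⟩

/-- `(x, y)` is a solution of `x^2 - (k^2+1) y^2 = k^2` with `x > 0` and `0 < y < k - 1`. -/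
def Extra (k : ℕ) (x y : ℤ) : Prop :=
  0 < x ∧ 0 < y ∧ y < (k : ℤ) - 1 ∧ x ^ 2 - ((k : ℤ) ^ 2 + 1) * y ^ 2 = (k : ℤ) ^ 2

theorem main_A_one (k p : ℕ) (hp : p.Prime) (hpk : p ∣ k) (h : (k / p) ^ 8 < k ^ 3)
    (x1 y1 x2 y2 : ℤ) (h1 : Extra k x1 y1) (h2 : Extra k x2 y2) : x1 = x2 ∧ y1 = y2 := by
  obtain ⟨hx1, hy1, hyk1, he1⟩ := h1
  obtain ⟨hx2, hy2, hyk2, he2⟩ := h2
  obtain ⟨m, hm⟩ := hpk
  have hk0 : 0 < k := by omega
  have hp0 : 0 < p := hp.pos
  have hm0 : 0 < m := by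
    rcases Nat.eq_zero_or_pos m with h3 | h3
    · rw [h3, mul_zero] at hm; omega
    · exact h3
  have hdiv : k / p = m := by rw [hm]; exact Nat.mul_div_cancel_left m hp0
  rw [hdiv] at h
  by_cases hp2 : p = 2
  · exfalso
    rw [hp2] at hm
    have hk3 : 3 ≤ k := by omega
    have e1 : k ^ 3 = 8 * m ^ 3 := by rw [hm]; ring
    have hm2 : 2 ≤ m := by omega
    have e2 : 8 * m ^ 3 ≤ m ^ 8 := by
      have : 2 ^ 5 ≤ m ^ 5 := Nat.pow_le_pow_left hm2 5
      calc 8 * m ^ 3 ≤ 2 ^ 5 * m ^ 3 := by nlinarith [Nat.zero_le (m ^ 3)]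
        _ ≤ m ^ 5 * m ^ 3 := Nat.mul_le_mul_right _ this
        _ = m ^ 8 := by ring
    omega
  · have hp' : Prime (p : ℤ) := Nat.prime_iff_prime_int.mp hp
    have hodd' : ¬ (p : ℤ) ∣ 2 := by
      intro h1
      have h2 : p ∣ 2 := by exact_mod_cast h1
      exact hp2 ((Nat.prime_dvd_prime_iff_eq hp Nat.prime_two).mp h2)
    have hn : (((m : ℤ)) ^ 2) ^ 4 < (k : ℤ) ^ 3 := by
      have e1 : ((m : ℤ) ^ 2) ^ 4 = (m : ℤ) ^ 8 := by ring
      rw [e1]
      exact_mod_cast h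
    exact sideA (k : ℤ) (p : ℤ) (m : ℤ) x1 y1 x2 y2 hp' hodd' (by rw [hm]; push_cast; ring)
      (by exact_mod_cast hp0) (by exact_mod_cast hm0) hn hx1 hy1 (by linarith) (by linarith)
      hx2 hy2 (by linarith) (by linarith)

theorem main_A_none (k p : ℕ) (hp : p.Prime) (hpk : p ∣ k) (h : 2 * (k / p) ^ 3 ≤ k)
    (x y : ℤ) (h1 : Extra k x y) : False := by
  obtain ⟨hx1, hy1, hyk1, he1⟩ := h1
  obtain ⟨m, hm⟩ := hpk
  have hk0 : 0 < k := by omega
  have hp0 : 0 < p := hp.pos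
  have hm0 : 0 < m := by
    rcases Nat.eq_zero_or_pos m with h3 | h3
    · rw [h3, mul_zero] at hm; omega
    · exact h3
  have hdiv : k / p = m := by rw [hm]; exact Nat.mul_div_cancel_left m hp0
  rw [hdiv] at h
  by_cases hp2 : p = 2
  · rw [hp2] at hm
    have hk3 : 3 ≤ k := by omega
    have hm2 : 2 ≤ m := by omega
    have e1 : k = 2 * m := hm
    have e2 : m * 1 < m * m ^ 2 := by
      apply Nat.mul_lt_mul_of_pos_left _ hm0
      nlinarith
    have e3 : m * m ^ 2 = m ^ 3 := by ring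
    omega
  · have hp' : Prime (p : ℤ) := Nat.prime_iff_prime_int.mp hp
    have hodd' : ¬ (p : ℤ) ∣ 2 := by
      intro h1
      have h2 : p ∣ 2 := by exact_mod_cast h1
      exact hp2 ((Nat.prime_dvd_prime_iff_eq hp Nat.prime_two).mp h2)
    exact noneA (k : ℤ) (p : ℤ) (m : ℤ) x y hp' hodd' (by rw [hm]; push_cast; ring)
      (by exact_mod_cast hp0) (by exact_mod_cast hm0) (by exact_mod_cast h) hx1 hy1 (by linarith) (by linarith)

theorem main_B_one (k p e c m : ℕ) (hp : p.Prime) (hodd : p ≠ 2) (hc : c = 1 ∨ c = 2)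
    (hqm : k ^ 2 + 1 = (c * p ^ e) * m) (h : 128 * m ^ 5 ≤ k ^ 4)
    (x1 y1 x2 y2 : ℤ) (h1 : Extra k x1 y1) (h2 : Extra k x2 y2) : x1 = x2 ∧ y1 = y2 := by
  obtain ⟨hx1, hy1, hyk1, he1⟩ := h1
  obtain ⟨hx2, hy2, hyk2, he2⟩ := h2
  have hqm' : (k : ℤ) ^ 2 + 1 = ((c * p ^ e : ℕ) : ℤ) * (m : ℤ) := by exact_mod_cast hqm
  have hq0 : 0 < c * p ^ e := by
    have : 0 < p ^ e := Nat.pow_pos hp.pos
    rcases hc with h3 | h3 <;> rw [h3] <;> omega
  have hm0 : 0 < m := by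
    rcases Nat.eq_zero_or_pos m with h3 | h3
    · rw [h3, mul_zero] at hqm; omega
    · exact h3
  have hdvd : ((c * p ^ e : ℕ) : ℤ) ∣ (k : ℤ) ^ 2 + 1 := ⟨_, hqm'⟩
  obtain ⟨ε1, z1, hε1, hxz1⟩ := dataB p e c hp hodd hc (k : ℤ) x1 y1 hdvd (by linarith)
  obtain ⟨ε2, z2, hε2, hxz2⟩ := dataB p e c hp hodd hc (k : ℤ) x2 y2 hdvd (by linarith)
  exact uniqB (k : ℤ) _ (m : ℤ) x1 y1 z1 ε1 x2 y2 z2 ε2 hε1 hε2 hqm' (by exact_mod_cast hm0)
    (by exact_mod_cast hq0) (by exact_mod_cast h) hx1 hy1 (by linarith) (by linarith) hxz1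
    hx2 hy2 (by linarith) (by linarith) hxz2

theorem main_B_none (k p e c m : ℕ) (hp : p.Prime) (hodd : p ≠ 2) (hc : c = 1 ∨ c = 2)
    (hqm : k ^ 2 + 1 = (c * p ^ e) * m) (h : 6 * m ^ 3 ≤ k ^ 2)
    (x1 y1 : ℤ) (h1 : Extra k x1 y1) : False := by
  obtain ⟨hx1, hy1, hyk1, he1⟩ := h1
  have hqm' : (k : ℤ) ^ 2 + 1 = ((c * p ^ e : ℕ) : ℤ) * (m : ℤ) := by exact_mod_cast hqm
  have hq0 : 0 < c * p ^ e := by
    have : 0 < p ^ e := Nat.pow_pos hp.pos
    rcases hc with h3 | h3 <;> rw [h3] <;> omega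
  have hm0 : 0 < m := by
    rcases Nat.eq_zero_or_pos m with h3 | h3
    · rw [h3, mul_zero] at hqm; omega
    · exact h3
  have hdvd : ((c * p ^ e : ℕ) : ℤ) ∣ (k : ℤ) ^ 2 + 1 := ⟨_, hqm'⟩
  obtain ⟨ε1, z1, hε1, hxz1⟩ := dataB p e c hp hodd hc (k : ℤ) x1 y1 hdvd (by linarith)
  exact sideB (k : ℤ) _ (m : ℤ) x1 y1 z1 ε1 hε1 hqm' (by exact_mod_cast hm0)
    (by exact_mod_cast hq0) (by exact_mod_cast h) hx1 hy1 (by linarith) (by linarith) hxz1

end Pool.Agent.Helper590.Duj
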